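import Mathlib

/-!
# Hypergraph pairs, random subsets of the vertices
-/

set_option autoImplicit false

namespace Pool.Agent.KS6_66.SS

open Finset

/-- A hypergraph pair: a finite vertex set `V` (of natural numbers) and two multisets `H`, `F` of
subsets of `V` (the edges, with multiplicity). -/
structure HPair where
  /-- the vertex set -/
  V : Finset ℕ
  /-- the edges of the first hypergraph, with multiplicity -/
  H : Multiset (Finset ℕ)
  /-- the edges of the second hypergraph, with multiplicity -/
  F : Multiset (Finset ℕ)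
  hH : ∀ e ∈ H, e ⊆ V
  hF : ∀ e ∈ F, e ⊆ V

/-- The pair induced on a set `S` of vertices. -/
def HPair.restrict (P : HPair) (S : Finset ℕ) : HPair where
  V := S
  H := P.H.filter (fun e => e ⊆ S)
  F := P.F.filter (fun e => e ⊆ S)
  hH := fun _ he => (Multiset.mem_filter.1 he).2
  hF := fun _ he => (Multiset.mem_filter.1 he).2

/-- `α_H(F)`: the maximum number of edges of `H` inside a set `I` independent in `F`. -/
def HPair.alpha (P : HPair) : ℕ :=
  (P.V.powerset.filter (fun I => (P.F.filter (fun e => e ⊆ I)).card = 0)).sup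
    (fun I => (P.H.filter (fun e => e ⊆ I)).card)

/-- The pair is `(h, f, f')`-bounded. -/
def HPair.Bounded (P : HPair) (h f f' : ℕ) : Prop :=
  (∀ e ∈ P.H, e.card ≤ h) ∧ ∀ e ∈ P.F, f ≤ e.card ∧ e.card ≤ f'

/-- The family is hereditary. -/
def Hereditary (Fam : Set HPair) : Prop := ∀ P ∈ Fam, ∀ S ⊆ P.V, P.restrict S ∈ Fam

/-- The hypotheses (*) of the problem, for positive integers `f ≤ f'` and `β < h`.  The condition
`ex(n, Fam) = O(n ^ β)` says that `α_H(F) ≤ C n ^ β` for all pairs of the family on `n ≥ 1`
vertices, with some constant `C` which also bounds `α_H(F)` for the pairs on no vertices. -/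
structure Star (Fam : Set HPair) (h f f' : ℕ) (β : ℝ) : Prop where
  f_pos : 1 ≤ f
  f_le : f ≤ f'
  hereditary : Hereditary Fam
  bounded : ∀ P ∈ Fam, P.Bounded h f f'
  beta_lt : β < h
  ex_bound : ∃ C : ℝ, ∀ P ∈ Fam, (P.alpha : ℝ) ≤ C * (max 1 (P.V.card : ℝ)) ^ β
  f_lt : (f : ℝ) < h - β
  not_contained : ∀ P ∈ Fam, ∀ e ∈ P.F, ∀ g ∈ P.H, ¬ e ⊆ g

/-! ### Random subsets -/

section random

variable (V : Finset ℕ) (m : ℕ) [NeZero m]

/-- The set of the elements of `V` sent to `0`. -/
def zset (φ : V → Fin m) : Finset ℕ := (univ.filter (fun v : V => φ v = 0)).map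
  (Function.Embedding.subtype _)

variable {V m}

lemma mem_zset {φ : V → Fin m} {v : ℕ} : v ∈ zset V m φ ↔ ∃ hv : v ∈ V, φ ⟨v, hv⟩ = 0 := by
  unfold zset
  simp

lemma zset_sub (φ : V → Fin m) : zset V m φ ⊆ V := fun v hv => (mem_zset.1 hv).1

lemma card_contains {B : Finset ℕ} (hB : B ⊆ V) :
    ((univ.filter (fun φ : V → Fin m => B ⊆ zset V m φ)).card : ℝ) =
      (m : ℝ) ^ V.card * (1 / (m : ℝ)) ^ B.card := by
  classical
  have h1 : univ.filter (fun φ : V → Fin m => B ⊆ zset V m φ) =
      Fintype.piFinset (fun v : V => if v.1 ∈ B then {(0 : Fin m)} else univ) := by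
    ext φ
    rw [mem_filter, Fintype.mem_piFinset]
    constructor
    · rintro ⟨-, h⟩ v
      by_cases hv : v.1 ∈ B
      · rw [if_pos hv, mem_singleton]
        obtain ⟨_, h2⟩ := mem_zset.1 (h hv)
        exact h2
      · rw [if_neg hv]; exact mem_univ _
    · intro h
      refine ⟨mem_univ _, fun v hv => mem_zset.2 ⟨hB hv, ?_⟩⟩
      have := h ⟨v, hB hv⟩
      rw [if_pos (show (⟨v, hB hv⟩ : V).1 ∈ B from hv), mem_singleton] at this
      exact this
  rw [h1, Fintype.card_piFinset]
  have h2 : ∏ v : V, (if v.1 ∈ B then {(0 : Fin m)} else univ : Finset (Fin m)).card =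
      ∏ v : V, (if v.1 ∈ B then 1 else m) := by
    refine prod_congr rfl fun _ _ => ?_
    split_ifs <;> simp
  rw [h2, prod_ite, prod_const_one, one_mul, prod_const]
  have h3 : (univ.filter (fun v : V => ¬ v.1 ∈ B)).card = (V \ B).card := by
    rw [← card_map (Function.Embedding.subtype _)]
    congr 1
    ext v
    simp
    tauto
  rw [h3, card_sdiff_of_subset hB]
  have hle := card_le_card hB
  have hm : (m : ℝ) ≠ 0 := by exact_mod_cast NeZero.ne m
  push_cast
  rw [one_div, inv_pow, pow_sub₀ _ hm hle]

end random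

/-! ### Multisets -/

lemma card_filter_exists_le {α ι : Type*} [Fintype ι] (s : Multiset α) (Q : α → ι → Prop)
    [∀ a, DecidablePred (Q a)] [DecidablePred (fun i => ∃ a ∈ s, Q a i)] :
    ((univ.filter (fun i => ∃ a ∈ s, Q a i)).card : ℝ) ≤
      (s.map (fun a => ((univ.filter (Q a)).card : ℝ))).sum := by
  classical
  have key : ∀ t : Multiset α, ((univ.filter (fun i => ∃ a ∈ t, Q a i)).card : ℝ) ≤
      (t.map (fun a => ((univ.filter (Q a)).card : ℝ))).sum := by
    intro t
    induction t using Multiset.induction with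
    | empty => simp
    | cons a t ih =>
      rw [Multiset.map_cons, Multiset.sum_cons]
      have h1 : univ.filter (fun i => ∃ b ∈ a ::ₘ t, Q b i) ⊆
          univ.filter (Q a) ∪ univ.filter (fun i => ∃ b ∈ t, Q b i) := by
        intro i hi
        rw [mem_filter] at hi
        obtain ⟨-, b, hb, hq⟩ := hi
        rw [mem_union, mem_filter, mem_filter]
        rcases Multiset.mem_cons.1 hb with rfl | hb
        · exact Or.inl ⟨mem_univ _, hq⟩
        · exact Or.inr ⟨mem_univ _, b, hb, hq⟩
      have h2 := (card_le_card h1).trans (card_union_le _ _)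
      have h3 : ((univ.filter (fun i => ∃ b ∈ a ::ₘ t, Q b i)).card : ℝ) ≤
          ((univ.filter (Q a)).card : ℝ) + ((univ.filter (fun i => ∃ b ∈ t, Q b i)).card : ℝ) := by
        exact_mod_cast h2
      linarith
  convert key s

lemma double_count {α ι : Type*} [Fintype ι] (s : Multiset α) (R : α → ι → Prop)
    [∀ a, DecidablePred (R a)] [∀ i, DecidablePred (fun a => R a i)] :
    (s.map (fun a => ((univ.filter (R a)).card : ℝ))).sum =
      ∑ i, ((s.filter (fun a => R a i)).card : ℝ) := by
  classical
  induction s using Multiset.induction with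
  | empty => simp
  | cons a t ih =>
    rw [Multiset.map_cons, Multiset.sum_cons, ih, card_filter]
    push_cast
    rw [← sum_add_distrib]
    refine sum_congr rfl fun i _ => ?_
    by_cases h : R a i
    · rw [Multiset.filter_cons_of_pos (p := fun a => R a i) _ h, if_pos h, Multiset.card_cons]
      push_cast; ring
    · rw [Multiset.filter_cons_of_neg (p := fun a => R a i) _ h, if_neg h, zero_add]

lemma card_le_sum_of_cover {α κ : Type*} (s : Multiset α) (p : α → Prop) [DecidablePred p]
    (T : Finset κ) (q : κ → α → Prop) [∀ k, DecidablePred (q k)]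
    (h : ∀ a ∈ s, p a → ∃ k ∈ T, q k a) :
    ((s.filter p).card : ℝ) ≤ ∑ k ∈ T, ((s.filter (q k)).card : ℝ) := by
  classical
  induction s using Multiset.induction with
  | empty => simp
  | cons a t ih =>
    have ih' := ih (fun b hb => h b (Multiset.mem_cons_of_mem hb))
    by_cases hp : p a
    · obtain ⟨k, hk, hq⟩ := h a (Multiset.mem_cons_self a t) hp
      rw [Multiset.filter_cons_of_pos _ hp, Multiset.card_cons]
      have h1 : ∀ j ∈ T, ((t.filter (q j)).card : ℝ) + (if j = k then 1 else 0) ≤
          (((a ::ₘ t).filter (q j)).card : ℝ) := by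
        intro j _
        by_cases hj : q j a
        · rw [Multiset.filter_cons_of_pos _ hj, Multiset.card_cons]
          push_cast
          split_ifs <;> linarith
        · rw [Multiset.filter_cons_of_neg _ hj, if_neg]
          · simp
          · rintro rfl; exact hj hq
      have h2 := sum_le_sum h1
      rw [sum_add_distrib, sum_ite_eq' T k, if_pos hk] at h2
      push_cast
      linarith
    · rw [Multiset.filter_cons_of_neg _ hp]
      refine ih'.trans (sum_le_sum fun j _ => ?_)
      have : (t.filter (q j)).card ≤ ((a ::ₘ t).filter (q j)).card := by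
        apply Multiset.card_le_card
        exact Multiset.filter_le_filter _ (Multiset.le_cons_self t a)
      exact_mod_cast this

end Pool.Agent.KS6_66.SS
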