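import Pool.Agent.KS6_66.SS.A

/-!
# The sampling lemma
-/

set_option autoImplicit false

namespace Pool.Agent.KS6_66.SS

open Finset

/-- The expected number of conflicts. -/
noncomputable def wt (F : Multiset (Finset ℕ)) (A e : Finset ℕ) (m : ℕ) : ℝ :=
  ((F.filter (fun E => ¬ E ∩ e ⊆ A)).map (fun E => (1 / (m : ℝ)) ^ (E \ e).card)).sum

lemma claim_one (P : HPair) (m : ℕ) [NeZero m] (A e : Finset ℕ) (heV : e ⊆ P.V)
    (hw : wt P.F A e m ≤ 1 / 2) :
    (m : ℝ) ^ P.V.card * (1 / (m : ℝ)) ^ (e \ A).card / 4 ≤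
      ((univ.filter (fun φ : P.V → Fin m => e \ A ⊆ zset P.V m φ ∧
        (∀ E ∈ P.F, ¬ E ∩ e ⊆ A → ¬ E \ e ⊆ zset P.V m φ) ∧
        ((zset P.V m φ \ (e \ A)).card : ℝ) * m ≤ 4 * P.V.card)).card : ℝ) := by
  classical
  obtain ⟨B, hB⟩ : ∃ B, B = e \ A := ⟨_, rfl⟩
  rw [← hB]
  have hBV : B ⊆ P.V := by rw [hB]; exact sdiff_subset.trans heV
  have hm : (0 : ℝ) < m := by exact_mod_cast Nat.pos_of_ne_zero (NeZero.ne m)
  obtain ⟨N, hN⟩ : ∃ N : ℝ, N = (m : ℝ) ^ P.V.card * (1 / (m : ℝ)) ^ B.card := ⟨_, rfl⟩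
  have hN0 : 0 ≤ N := by rw [hN]; positivity
  rw [← hN]
  set T := univ.filter (fun φ : P.V → Fin m => B ⊆ zset P.V m φ) with hT
  have hTc : (T.card : ℝ) = N := by rw [hT, card_contains hBV, hN]
  set R := univ.filter (fun φ : P.V → Fin m => B ⊆ zset P.V m φ ∧
        (∀ E ∈ P.F, ¬ E ∩ e ⊆ A → ¬ E \ e ⊆ zset P.V m φ) ∧
        ((zset P.V m φ \ B).card : ℝ) * m ≤ 4 * P.V.card) with hR
  set b1 := univ.filter (fun φ : P.V → Fin m => ∃ E ∈ P.F.filter (fun E => ¬ E ∩ e ⊆ A),
    B ∪ (E \ e) ⊆ zset P.V m φ) with hb1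
  set b2 := T.filter (fun φ : P.V → Fin m =>
    4 * (P.V.card : ℝ) < ((zset P.V m φ \ B).card : ℝ) * m) with hb2
  have hcov : T ⊆ R ∪ (b1 ∪ b2) := by
    intro φ hφ
    rw [hT, mem_filter] at hφ
    by_cases h1 : ∀ E ∈ P.F, ¬ E ∩ e ⊆ A → ¬ E \ e ⊆ zset P.V m φ
    · by_cases h2 : ((zset P.V m φ \ B).card : ℝ) * m ≤ 4 * P.V.card
      · exact mem_union_left _ (mem_filter.2 ⟨mem_univ _, hφ.2, h1, h2⟩)
      · refine mem_union_right _ (mem_union_right _ (mem_filter.2 ⟨?_, not_le.1 h2⟩))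
        exact mem_filter.2 hφ
    · push Not at h1
      obtain ⟨E, hE, h3, h4⟩ := h1
      refine mem_union_right _ (mem_union_left _ (mem_filter.2 ⟨mem_univ _, E, ?_, ?_⟩))
      · exact Multiset.mem_filter.2 ⟨hE, h3⟩
      · exact union_subset hφ.2 h4
  have hcard : (T.card : ℝ) ≤ R.card + (b1.card + b2.card) := by
    have h1 := (card_le_card hcov).trans ((card_union_le _ _).trans
      (Nat.add_le_add_left (card_union_le _ _) _))
    exact_mod_cast h1
  have hb1c : (b1.card : ℝ) ≤ N / 2 := by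
    have h1 := card_filter_exists_le (ι := P.V → Fin m) (P.F.filter (fun E => ¬ E ∩ e ⊆ A))
      (fun E φ => B ∪ (E \ e) ⊆ zset P.V m φ)
    refine h1.trans ?_
    have h2 : (P.F.filter (fun E => ¬ E ∩ e ⊆ A)).map
        (fun E => ((univ.filter (fun φ : P.V → Fin m => B ∪ (E \ e) ⊆ zset P.V m φ)).card : ℝ)) =
        (P.F.filter (fun E => ¬ E ∩ e ⊆ A)).map (fun E => N * (1 / (m : ℝ)) ^ (E \ e).card) := by
      refine Multiset.map_congr rfl fun E hE => ?_
      have hE' := (Multiset.mem_filter.1 hE).1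
      rw [card_contains (union_subset hBV (sdiff_subset.trans (P.hF E hE'))),
        card_union_of_disjoint, hN, pow_add]
      · ring
      · rw [hB, disjoint_left]
        intro v hv hv'
        exact (mem_sdiff.1 hv').2 (mem_sdiff.1 hv).1
    rw [h2, Multiset.sum_map_mul_left]
    change N * wt P.F A e m ≤ N / 2
    nlinarith
  have hb2c : (b2.card : ℝ) ≤ N / 4 := by
    rcases Nat.eq_zero_or_pos P.V.card with hn | hn
    · have hV := card_eq_zero.1 hn
      have h1 : b2 = ∅ := by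
        rw [hb2, filter_eq_empty_iff]
        intro φ _
        have h2 : zset P.V m φ \ B = ∅ := by
          have := (sdiff_subset (s := zset P.V m φ) (t := B)).trans (zset_sub φ)
          exact subset_empty.1 (this.trans (subset_of_eq hV))
        rw [h2, hn]
        simp
      rw [h1]
      simp only [card_empty, Nat.cast_zero]
      linarith
    · have hn' : (0 : ℝ) < P.V.card := by exact_mod_cast hn
      have h1 : ∑ φ ∈ T, ((zset P.V m φ \ B).card : ℝ) =
          ∑ v ∈ P.V \ B, ((univ.filter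
            (fun φ : P.V → Fin m => insert v B ⊆ zset P.V m φ)).card : ℝ) := by
        have h2 : ∀ φ : P.V → Fin m, ((zset P.V m φ \ B).card : ℝ) =
            ∑ v ∈ P.V \ B, (if v ∈ zset P.V m φ then (1 : ℝ) else 0) := by
          intro φ
          rw [← sum_filter, sum_const, nsmul_eq_mul, mul_one]
          congr 2
          ext v
          rw [mem_sdiff, mem_filter, mem_sdiff]
          constructor
          · intro h; exact ⟨⟨zset_sub φ h.1, h.2⟩, h.1⟩
          · intro h; exact ⟨h.2, h.1.2⟩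
        rw [sum_congr rfl (fun φ _ => h2 φ), sum_comm]
        refine sum_congr rfl fun v _ => ?_
        rw [← sum_filter, sum_const, nsmul_eq_mul, mul_one]
        congr 2
        ext φ
        rw [mem_filter, hT, mem_filter, mem_filter, insert_subset_iff]
        tauto
      have h3 : ∑ φ ∈ T, ((zset P.V m φ \ B).card : ℝ) ≤ P.V.card * (N * (1 / (m : ℝ))) := by
        rw [h1]
        have h4 : ∀ v ∈ P.V \ B, ((univ.filter
            (fun φ : P.V → Fin m => insert v B ⊆ zset P.V m φ)).card : ℝ) =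
            N * (1 / (m : ℝ)) := by
          intro v hv
          rw [mem_sdiff] at hv
          rw [card_contains (insert_subset hv.1 hBV), card_insert_of_notMem hv.2, hN, pow_succ]
          ring
        rw [sum_congr rfl h4, sum_const, nsmul_eq_mul]
        have h5 : ((P.V \ B).card : ℝ) ≤ P.V.card := by exact_mod_cast card_le_card sdiff_subset
        have h6 : 0 ≤ N * (1 / (m : ℝ)) := by positivity
        exact mul_le_mul_of_nonneg_right h5 h6
      have h7 : (b2.card : ℝ) * (4 * P.V.card) ≤ m * ∑ φ ∈ T, ((zset P.V m φ \ B).card : ℝ) := by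
        rw [← nsmul_eq_mul, ← sum_const, mul_sum]
        refine (sum_le_sum (g := fun φ => (m : ℝ) * ((zset P.V m φ \ B).card : ℝ))
          (fun φ hφ => ?_)).trans
          (sum_le_sum_of_subset_of_nonneg (filter_subset _ _) (fun φ _ _ => by positivity))
        have := (mem_filter.1 hφ).2
        linarith
      have h8 : (m : ℝ) * ∑ φ ∈ T, ((zset P.V m φ \ B).card : ℝ) ≤ P.V.card * N := by
        have := mul_le_mul_of_nonneg_left h3 hm.le
        refine this.trans (le_of_eq ?_)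
        field_simp
      have h9 : (b2.card : ℝ) * (4 * P.V.card) ≤ P.V.card * N := h7.trans h8
      have h10 : (P.V.card : ℝ) * (4 * b2.card) ≤ P.V.card * N := by linarith
      have := le_of_mul_le_mul_left h10 hn'
      linarith
  linarith

open Classical in
lemma claim_two (P : HPair) (h m : ℕ) [NeZero m] (β C : ℝ) (hβ : 0 ≤ β) (hC : 0 ≤ C)
    (hI : ∀ I ⊆ P.V, (∀ E ∈ P.F, ¬ E ⊆ I) →
      ((P.H.filter (fun e => e ⊆ I)).card : ℝ) ≤ C * (max 1 (I.card : ℝ)) ^ β)
    (A : Finset ℕ) (hAV : A ⊆ P.V) (hAh : A.card ≤ h) (hA : ∀ E ∈ P.F, ¬ E ⊆ A)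
    (p : Finset ℕ → Prop) [DecidablePred p]
    (hp : ∀ e ∈ P.H, p e → A ⊆ e ∧ e.card ≤ h) (φ : P.V → Fin m) :
    (((P.H.filter p).filter (fun e : Finset ℕ => e \ A ⊆ zset P.V m φ ∧
        (∀ E ∈ P.F, ¬ E ∩ e ⊆ A → ¬ E \ e ⊆ zset P.V m φ) ∧
        ((zset P.V m φ \ (e \ A)).card : ℝ) * m ≤ 4 * P.V.card)).card : ℝ) ≤
      C * (4 * P.V.card / m + 2 * h + 1) ^ β := by
  have hm : (0 : ℝ) < m := by exact_mod_cast Nat.pos_of_ne_zero (NeZero.ne m)
  set M := ((P.H.filter p).filter (fun e : Finset ℕ => e \ A ⊆ zset P.V m φ ∧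
        (∀ E ∈ P.F, ¬ E ∩ e ⊆ A → ¬ E \ e ⊆ zset P.V m φ) ∧
        ((zset P.V m φ \ (e \ A)).card : ℝ) * m ≤ 4 * P.V.card)) with hM
  have hpos : 0 ≤ C * (4 * (P.V.card : ℝ) / m + 2 * h + 1) ^ β := by positivity
  rcases Multiset.empty_or_exists_mem M with h0 | ⟨e0, he0⟩
  · rw [h0]; simpa using hpos
  · set S := zset P.V m φ with hS
    set I := A ∪ S.filter (fun v => ∀ E ∈ P.F, v ∈ E → ¬ E ⊆ A ∪ S) with hIdef
    have hIV : I ⊆ P.V := union_subset hAV ((filter_subset _ _).trans (zset_sub φ))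
    have hIind : ∀ E ∈ P.F, ¬ E ⊆ I := by
      intro E hE hEI
      apply hA E hE
      intro v hv
      have h1 := hEI hv
      rw [hIdef, mem_union] at h1
      rcases h1 with h1 | h1
      · exact h1
      · exfalso
        refine (mem_filter.1 h1).2 E hE hv (hEI.trans ?_)
        exact union_subset_union (Subset.refl _) (filter_subset _ _)
    have h1 := hI I hIV hIind
    have hle : M ≤ P.H.filter (fun e => e ⊆ I) := by
      rw [Multiset.le_filter]
      refine ⟨(Multiset.filter_le _ _).trans (Multiset.filter_le _ _), ?_⟩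
      intro e he
      rw [hM, Multiset.mem_filter, Multiset.mem_filter] at he
      obtain ⟨⟨heH, hpe⟩, h2, h3, -⟩ := he
      intro v hv
      by_cases hvA : v ∈ A
      · exact mem_union_left _ hvA
      · refine mem_union_right _ (mem_filter.2 ⟨h2 (mem_sdiff.2 ⟨hv, hvA⟩), ?_⟩)
        intro E hE hvE hEAS
        refine h3 E hE ?_ ?_
        · intro h4
          exact hvA (h4 (mem_inter.2 ⟨hvE, hv⟩))
        · intro w hw
          rw [mem_sdiff] at hw
          rcases mem_union.1 (hEAS hw.1) with h5 | h5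
          · exact absurd ((hp e heH hpe).1 h5) hw.2
          · exact h5
    have h2 : (M.card : ℝ) ≤ ((P.H.filter (fun e => e ⊆ I)).card : ℝ) := by
      exact_mod_cast Multiset.card_le_card hle
    refine h2.trans (h1.trans (mul_le_mul_of_nonneg_left ?_ hC))
    refine Real.rpow_le_rpow (by positivity) ?_ hβ
    rw [hM, Multiset.mem_filter, Multiset.mem_filter] at he0
    obtain ⟨⟨heH, hpe⟩, -, -, h4⟩ := he0
    have h5 : ((S \ (e0 \ A)).card : ℝ) ≤ 4 * P.V.card / m := by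
      rw [le_div_iff₀ hm]; exact h4
    have h6 : (S.card : ℝ) ≤ (S \ (e0 \ A)).card + e0.card := by
      have : S.card ≤ (S \ (e0 \ A)).card + e0.card := by
        have h7 : S ⊆ (S \ (e0 \ A)) ∪ e0 := by
          intro v hv
          by_cases hv2 : v ∈ e0
          · exact mem_union_right _ hv2
          · exact mem_union_left _ (mem_sdiff.2 ⟨hv, fun h8 => hv2 (mem_sdiff.1 h8).1⟩)
        exact (card_le_card h7).trans (card_union_le _ _)
      exact_mod_cast this
    have h8 : (e0.card : ℝ) ≤ h := by exact_mod_cast (hp e0 heH hpe).2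
    have h9 : (I.card : ℝ) ≤ A.card + S.card := by
      have : I.card ≤ A.card + S.card :=
        (card_union_le _ _).trans (Nat.add_le_add_left (card_le_card (filter_subset _ _)) _)
      exact_mod_cast this
    have h10 : (A.card : ℝ) ≤ h := by exact_mod_cast hAh
    have h11 : (0 : ℝ) ≤ 4 * P.V.card / m := by positivity
    have h12 : (0 : ℝ) ≤ h := Nat.cast_nonneg h
    apply max_le <;> linarith

/-- The sampling lemma. -/
theorem sampling (P : HPair) (h m : ℕ) [NeZero m] (β C : ℝ) (hβ : 0 ≤ β) (hC : 0 ≤ C)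
    (hI : ∀ I ⊆ P.V, (∀ E ∈ P.F, ¬ E ⊆ I) →
      ((P.H.filter (fun e => e ⊆ I)).card : ℝ) ≤ C * (max 1 (I.card : ℝ)) ^ β)
    (A : Finset ℕ) (p : Finset ℕ → Prop) [DecidablePred p]
    (hp : ∀ e ∈ P.H, p e → A ⊆ e ∧ e.card ≤ h ∧ (∀ E ∈ P.F, ¬ E ⊆ e) ∧ wt P.F A e m ≤ 1 / 2) :
    ((P.H.filter p).card : ℝ) ≤
      4 * (m : ℝ) ^ (h - A.card) * (C * (4 * P.V.card / m + 2 * h + 1) ^ β) := by
  classical
  have hm : (0 : ℝ) < m := by exact_mod_cast Nat.pos_of_ne_zero (NeZero.ne m)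
  have hm1 : (1 : ℝ) ≤ m := by exact_mod_cast Nat.pos_of_ne_zero (NeZero.ne m)
  have hpos : 0 ≤ C * (4 * (P.V.card : ℝ) / m + 2 * h + 1) ^ β := by positivity
  rcases Multiset.empty_or_exists_mem (P.H.filter p) with h0 | ⟨e0, he0⟩
  · rw [h0]
    simp only [Multiset.card_zero, Nat.cast_zero]
    positivity
  · rw [Multiset.mem_filter] at he0
    obtain ⟨hA1, hA2, hA3, -⟩ := hp e0 he0.1 he0.2
    have hAV : A ⊆ P.V := hA1.trans (P.hH e0 he0.1)
    have hAh : A.card ≤ h := (card_le_card hA1).trans hA2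
    have hA : ∀ E ∈ P.F, ¬ E ⊆ A := fun E hE hEA => hA3 E hE (hEA.trans hA1)
    obtain ⟨K, hK⟩ : ∃ K : ℝ, K = C * (4 * (P.V.card : ℝ) / m + 2 * h + 1) ^ β := ⟨_, rfl⟩
    obtain ⟨N, hN⟩ : ∃ N : ℝ, N = (m : ℝ) ^ P.V.card := ⟨_, rfl⟩
    have hN0 : 0 < N := by rw [hN]; positivity
    have h1 := double_count (ι := P.V → Fin m) (P.H.filter p)
      (fun (e : Finset ℕ) (φ : P.V → Fin m) => e \ A ⊆ zset P.V m φ ∧
        (∀ E ∈ P.F, ¬ E ∩ e ⊆ A → ¬ E \ e ⊆ zset P.V m φ) ∧
        ((zset P.V m φ \ (e \ A)).card : ℝ) * m ≤ 4 * P.V.card)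
    have h2 : ∑ φ : P.V → Fin m, (((P.H.filter p).filter (fun e : Finset ℕ =>
        e \ A ⊆ zset P.V m φ ∧
        (∀ E ∈ P.F, ¬ E ∩ e ⊆ A → ¬ E \ e ⊆ zset P.V m φ) ∧
        ((zset P.V m φ \ (e \ A)).card : ℝ) * m ≤ 4 * P.V.card)).card : ℝ) ≤ N * K := by
      refine (sum_le_sum (fun φ _ => claim_two P h m β C hβ hC hI A hAV hAh hA p
        (fun e he hpe => ⟨(hp e he hpe).1, (hp e he hpe).2.1⟩) φ)).trans ?_
      rw [sum_const, nsmul_eq_mul, card_univ, Fintype.card_fun, Fintype.card_fin,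
        Fintype.card_coe, ← hK, hN]
      push_cast
      exact le_rfl
    have h3 : ((P.H.filter p).map (fun _ => N * (1 / (m : ℝ)) ^ (h - A.card) / 4)).sum ≤
        ((P.H.filter p).map (fun e => ((univ.filter (fun φ : P.V → Fin m =>
          e \ A ⊆ zset P.V m φ ∧
        (∀ E ∈ P.F, ¬ E ∩ e ⊆ A → ¬ E \ e ⊆ zset P.V m φ) ∧
        ((zset P.V m φ \ (e \ A)).card : ℝ) * m ≤ 4 * P.V.card)).card : ℝ))).sum := by
      refine Multiset.sum_map_le_sum_map _ _ fun e he => ?_
      rw [Multiset.mem_filter] at he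
      obtain ⟨h4, h5, h6, h7⟩ := hp e he.1 he.2
      refine le_trans ?_ (claim_one P m A e (P.hH e he.1) h7)
      rw [← hN]
      have h8 : (e \ A).card ≤ h - A.card := by
        rw [card_sdiff_of_subset h4]; omega
      have h9 : (1 / (m : ℝ)) ^ (h - A.card) ≤ (1 / (m : ℝ)) ^ (e \ A).card := by
        apply pow_le_pow_of_le_one (by positivity) _ h8
        rw [div_le_one hm]; exact hm1
      have h10 := mul_le_mul_of_nonneg_left h9 hN0.le
      linarith
    rw [Multiset.map_const', Multiset.sum_replicate, nsmul_eq_mul] at h3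
    have h11 : ((P.H.filter p).card : ℝ) * (N * (1 / (m : ℝ)) ^ (h - A.card) / 4) ≤ N * K :=
      h3.trans (le_trans (le_of_eq h1) h2)
    rw [← hK]
    have h12 : (1 / (m : ℝ)) ^ (h - A.card) * (m : ℝ) ^ (h - A.card) = 1 := by
      rw [← mul_pow, one_div, inv_mul_cancel₀ hm.ne', one_pow]
    have h13 : ((P.H.filter p).card : ℝ) * (1 / (m : ℝ)) ^ (h - A.card) ≤ 4 * K := by
      have : N * (((P.H.filter p).card : ℝ) * (1 / (m : ℝ)) ^ (h - A.card)) ≤ N * (4 * K) := by
        linarith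
      exact le_of_mul_le_mul_left this hN0
    have h14 := mul_le_mul_of_nonneg_right h13 (by positivity : 0 ≤ (m : ℝ) ^ (h - A.card))
    rw [mul_assoc, h12, mul_one] at h14
    linarith

end Pool.Agent.KS6_66.SS
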