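import Pool.Agent.KS6_66.SS.B

/-!
# A general bound for the number of edges
-/

set_option autoImplicit false

namespace Pool.Agent.KS6_66.SS

open Finset

lemma sum_pow_powerset (T : Finset ℕ) (x : ℝ) :
    ∑ A ∈ T.powerset, x ^ A.card = (1 + x) ^ T.card := by
  have := prod_one_add (f := fun _ : ℕ => x) (s := T)
  simp only [prod_const] at this
  rw [this]

/-- The number of small subsets. -/
lemma card_small_le (V : Finset ℕ) (h : ℕ) (hV : 1 ≤ V.card) :
    ((V.powerset.filter (fun A => A.card ≤ h)).card : ℝ) ≤ 3 * (V.card : ℝ) ^ h := by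
  have hn : (1 : ℝ) ≤ V.card := by exact_mod_cast hV
  have hn0 : (0 : ℝ) < V.card := by linarith
  have h1 : ∑ A ∈ V.powerset.filter (fun A => A.card ≤ h), (1 / (V.card : ℝ)) ^ h ≤
      ∑ A ∈ V.powerset, (1 / (V.card : ℝ)) ^ A.card := by
    refine (sum_le_sum (g := fun A => (1 / (V.card : ℝ)) ^ A.card) (fun A hA => ?_)).trans
      (sum_le_sum_of_subset_of_nonneg (filter_subset _ _) (fun A _ _ => by positivity))
    apply pow_le_pow_of_le_one (by positivity) _ (mem_filter.1 hA).2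
    rw [div_le_one hn0]; exact hn
  rw [sum_pow_powerset, sum_const, nsmul_eq_mul] at h1
  have h2 : (1 + 1 / (V.card : ℝ)) ^ V.card ≤ Real.exp 1 := by
    have h3 : 1 + 1 / (V.card : ℝ) ≤ Real.exp (1 / V.card) := by
      have := Real.add_one_le_exp (1 / (V.card : ℝ)); linarith
    refine (pow_le_pow_left₀ (by positivity) h3 _).trans ?_
    rw [← Real.exp_nat_mul, mul_one_div_cancel hn0.ne']
  have h4 : Real.exp 1 ≤ 3 := by
    have := Real.exp_one_lt_d9; linarith
  have h5 : ((V.powerset.filter (fun A => A.card ≤ h)).card : ℝ) * (1 / (V.card : ℝ)) ^ h ≤ 3 :=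
    h1.trans (h2.trans h4)
  rw [one_div, inv_pow, ← div_eq_mul_inv, div_le_iff₀ (by positivity)] at h5
  exact h5

/-- The crude bound. -/
lemma crude (P : HPair) (h : ℕ) (β C : ℝ) (hβ : 0 ≤ β) (hC : 0 ≤ C)
    (hI : ∀ I ⊆ P.V, (∀ E ∈ P.F, ¬ E ⊆ I) →
      ((P.H.filter (fun e => e ⊆ I)).card : ℝ) ≤ C * (max 1 (I.card : ℝ)) ^ β)
    (hh : ∀ e ∈ P.H, e.card ≤ h) (hF : ∀ e ∈ P.F, ∀ g ∈ P.H, ¬ e ⊆ g) (hV : 1 ≤ P.V.card) :
    (P.H.card : ℝ) ≤ 3 * (P.V.card : ℝ) ^ h * (C * ((h : ℝ) + 1) ^ β) := by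
  classical
  have h1 := card_le_sum_of_cover P.H (fun _ => True) (P.V.powerset.filter (fun A => A.card ≤ h))
    (fun A e => e = A) (fun e he _ => ⟨e, mem_filter.2 ⟨mem_powerset.2 (P.hH e he), hh e he⟩, rfl⟩)
  have h2 : P.H.filter (fun _ => True) = P.H := Multiset.filter_eq_self.2 (fun _ _ => trivial)
  rw [h2] at h1
  refine h1.trans ?_
  have h3 : ∀ A ∈ P.V.powerset.filter (fun A => A.card ≤ h),
      ((P.H.filter (fun e => e = A)).card : ℝ) ≤ C * ((h : ℝ) + 1) ^ β := by
    intro A hA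
    rw [mem_filter, mem_powerset] at hA
    by_cases hAH : A ∈ P.H
    · have h4 := hI A hA.1 (fun E hE => hF E hE A hAH)
      have h5 : ((P.H.filter (fun e => e = A)).card : ℝ) ≤
          ((P.H.filter (fun e => e ⊆ A)).card : ℝ) := by
        have : (P.H.filter (fun e => e = A)).card ≤ (P.H.filter (fun e => e ⊆ A)).card := by
          apply Multiset.card_le_card
          apply Multiset.monotone_filter_right
          intro e he
          rw [he]
        exact_mod_cast this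
      refine h5.trans (h4.trans (mul_le_mul_of_nonneg_left ?_ hC))
      apply Real.rpow_le_rpow (by positivity) _ hβ
      have h6 : (A.card : ℝ) ≤ h := by exact_mod_cast hA.2
      have h7 : (0 : ℝ) ≤ h := Nat.cast_nonneg h
      apply max_le <;> linarith
    · have h4 : P.H.filter (fun e => e = A) = 0 := by
        rw [Multiset.filter_eq_nil]
        rintro e he rfl
        exact hAH he
      rw [h4]
      simp only [Multiset.card_zero, Nat.cast_zero]
      positivity
  refine (sum_le_sum h3).trans ?_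
  rw [sum_const, nsmul_eq_mul]
  exact mul_le_mul_of_nonneg_right (card_small_le P.V h hV) (by positivity)

lemma sum_deg (P : HPair) (f' : ℕ) (hF' : ∀ E ∈ P.F, E.card ≤ f') :
    ∑ v ∈ P.V, ((P.F.filter (fun E => v ∈ E)).card : ℝ) ≤ f' * P.F.card := by
  classical
  have key : ∀ s : Multiset (Finset ℕ), (∀ E ∈ s, E ⊆ P.V ∧ E.card ≤ f') →
      ∑ v ∈ P.V, ((s.filter (fun E => v ∈ E)).card : ℝ) ≤ f' * s.card := by
    intro s
    induction s using Multiset.induction with
    | empty => intro _; simp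
    | cons a t ih =>
      intro hs
      have ih' := ih (fun E hE => hs E (Multiset.mem_cons_of_mem hE))
      obtain ⟨h1, h2⟩ := hs a (Multiset.mem_cons_self a t)
      have h3 : ∀ v ∈ P.V, (((a ::ₘ t).filter (fun E => v ∈ E)).card : ℝ) =
          (if v ∈ a then (1 : ℝ) else 0) + ((t.filter (fun E => v ∈ E)).card : ℝ) := by
        intro v _
        by_cases hv : v ∈ a
        · rw [Multiset.filter_cons_of_pos (p := fun E => v ∈ E) _ hv, if_pos hv,
            Multiset.card_cons]; push_cast; ring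
        · rw [Multiset.filter_cons_of_neg (p := fun E => v ∈ E) _ hv, if_neg hv, zero_add]
      rw [sum_congr rfl h3, sum_add_distrib, Multiset.card_cons, ← sum_filter, sum_const,
        nsmul_eq_mul, mul_one]
      have h4 : (P.V.filter (fun v => v ∈ a)).card ≤ f' := by
        refine le_trans (card_le_card ?_) h2
        intro v hv; exact (mem_filter.1 hv).2
      have h5 : ((P.V.filter (fun v => v ∈ a)).card : ℝ) ≤ f' := by exact_mod_cast h4
      push_cast
      linarith
  exact key P.F (fun E hE => ⟨P.hF E hE, hF' E hE⟩)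

lemma wt_le (P : HPair) (A e : Finset ℕ) (m s h : ℕ) (hm : 1 ≤ m) (he : e.card ≤ h)
    (hF : ∀ E ∈ P.F, ¬ E ⊆ e) (hdeg : ∀ v ∈ e \ A, (P.F.filter (fun E => v ∈ E)).card ≤ s) :
    wt P.F A e m ≤ h * (s * (1 / (m : ℝ))) := by
  classical
  have hm1 : (1 : ℝ) ≤ m := by exact_mod_cast hm
  have h1 : wt P.F A e m ≤ ((P.F.filter (fun E => ¬ E ∩ e ⊆ A)).card : ℝ) * (1 / (m : ℝ)) := by
    unfold wt
    rw [← nsmul_eq_mul, ← Multiset.sum_replicate, ← Multiset.map_const']
    refine Multiset.sum_map_le_sum_map _ _ fun E hE => ?_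
    have h2 : 1 ≤ (E \ e).card := by
      rw [Nat.one_le_iff_ne_zero, Ne, card_eq_zero, sdiff_eq_empty_iff_subset]
      exact hF E (Multiset.mem_filter.1 hE).1
    have h3 := pow_le_pow_of_le_one (by positivity : (0 : ℝ) ≤ 1 / m)
      (by rw [div_le_one (by linarith)]; exact hm1) h2
    rw [pow_one] at h3
    exact h3
  refine h1.trans ?_
  have h4 := card_le_sum_of_cover P.F (fun E => ¬ E ∩ e ⊆ A) (e \ A) (fun v E => v ∈ E) (by
    intro E _ hE
    rw [not_subset] at hE
    obtain ⟨v, hv, hvA⟩ := hE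
    rw [mem_inter] at hv
    exact ⟨v, mem_sdiff.2 ⟨hv.2, hvA⟩, hv.1⟩)
  have h5 : ∑ v ∈ e \ A, ((P.F.filter (fun E => v ∈ E)).card : ℝ) ≤ h * s := by
    refine (sum_le_sum (g := fun _ => (s : ℝ)) (fun v hv => by exact_mod_cast hdeg v hv)).trans ?_
    rw [sum_const, nsmul_eq_mul]
    have h6 : ((e \ A).card : ℝ) ≤ h := by
      exact_mod_cast (card_le_card sdiff_subset).trans he
    exact mul_le_mul_of_nonneg_right h6 (Nat.cast_nonneg s)
  rw [← mul_assoc]
  exact mul_le_mul_of_nonneg_right (h4.trans h5) (by positivity)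

/-- The bound in terms of `s ≥ √e(F)`. -/
theorem simple_bound (P : HPair) (h f' s : ℕ) (β C : ℝ) (hβ : 0 ≤ β) (hβh : β < h) (hC : 0 ≤ C)
    (hI : ∀ I ⊆ P.V, (∀ E ∈ P.F, ¬ E ⊆ I) →
      ((P.H.filter (fun e => e ⊆ I)).card : ℝ) ≤ C * (max 1 (I.card : ℝ)) ^ β)
    (hh : ∀ e ∈ P.H, e.card ≤ h) (hF' : ∀ E ∈ P.F, E.card ≤ f')
    (hF : ∀ e ∈ P.F, ∀ g ∈ P.H, ¬ e ⊆ g) (hV : 1 ≤ P.V.card) (hs : 1 ≤ s)
    (hsF : P.F.card ≤ s ^ 2) :
    (P.H.card : ℝ) ≤ (4 * (2 * ((h : ℝ) + 1)) ^ h * Real.exp f' * (2 * h + 5) ^ β +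
      3 * ((h : ℝ) + 1) ^ β) * C * (s : ℝ) ^ ((h : ℝ) - β) * (P.V.card : ℝ) ^ β := by
  classical
  have hs1 : (1 : ℝ) ≤ s := by exact_mod_cast hs
  have hs0 : (0 : ℝ) < s := by linarith
  have hn1 : (1 : ℝ) ≤ P.V.card := by exact_mod_cast hV
  have hn0 : (0 : ℝ) < P.V.card := by linarith
  have hh0 : (0 : ℝ) ≤ h := Nat.cast_nonneg h
  set K1 : ℝ := 4 * (2 * ((h : ℝ) + 1)) ^ h * Real.exp f' * (2 * h + 5) ^ β with hK1
  set K2 : ℝ := 3 * ((h : ℝ) + 1) ^ β with hK2
  have hK1p : 0 ≤ K1 := by positivity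
  have hK2p : 0 ≤ K2 := by positivity
  rcases le_or_gt s P.V.card with hns | hns
  · -- the main case
    have hns' : (s : ℝ) ≤ P.V.card := by exact_mod_cast hns
    set T := P.V.filter (fun v => s < (P.F.filter (fun E => v ∈ E)).card) with hT
    have hTc : (T.card : ℝ) ≤ f' * s := by
      have h1 : (T.card : ℝ) * s ≤ f' * s * s := by
        have h2 : (T.card : ℝ) * s ≤ ∑ v ∈ P.V, ((P.F.filter (fun E => v ∈ E)).card : ℝ) := by
          rw [← nsmul_eq_mul, ← sum_const]
          refine (sum_le_sum (g := fun v => ((P.F.filter (fun E => v ∈ E)).card : ℝ))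
            (fun v hv => ?_)).trans
            (sum_le_sum_of_subset_of_nonneg (filter_subset _ _) (fun v _ _ => by positivity))
          exact_mod_cast (mem_filter.1 hv).2.le
        have h3 := sum_deg P f' hF'
        have h4 : (P.F.card : ℝ) ≤ (s : ℝ) ^ 2 := by exact_mod_cast hsF
        have h5 : (f' : ℝ) * P.F.card ≤ f' * (s : ℝ) ^ 2 :=
          mul_le_mul_of_nonneg_left h4 (Nat.cast_nonneg f')
        calc (T.card : ℝ) * s ≤ f' * P.F.card := h2.trans h3
          _ ≤ f' * s * s := by rw [mul_assoc, ← pow_two]; exact h5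
      exact le_of_mul_le_mul_right h1 hs0
    obtain ⟨m, hm⟩ : ∃ m, m = 2 * (h + 1) * s := ⟨_, rfl⟩
    have hm1 : 1 ≤ m := by rw [hm]; nlinarith
    have : NeZero m := ⟨by omega⟩
    have hmr : (m : ℝ) = 2 * (h + 1) * s := by rw [hm]; push_cast; ring
    have hms : (s : ℝ) ≤ m := by rw [hmr]; nlinarith
    have hm0 : (0 : ℝ) < m := by linarith
    have hNA : ∀ A ∈ T.powerset.filter (fun A => A.card ≤ h),
        ((P.H.filter (fun e => e ∩ T = A)).card : ℝ) ≤
        (4 * (m : ℝ) ^ h * (C * (4 * P.V.card / m + 2 * h + 1) ^ β)) * (1 / (m : ℝ)) ^ A.card := by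
      intro A hA
      rw [mem_filter, mem_powerset] at hA
      have h1 := sampling P h m β C hβ hC hI A (fun e => e ∩ T = A) (by
        intro e he heA
        refine ⟨by rw [← heA]; exact inter_subset_left, hh e he, fun E hE => hF E hE e he, ?_⟩
        refine (wt_le P A e m s h hm1 (hh e he) (fun E hE => hF E hE e he) ?_).trans ?_
        · intro v hv
          rw [mem_sdiff, ← heA, mem_inter] at hv
          have hvT : v ∉ T := fun hvT => hv.2 ⟨hv.1, hvT⟩
          rw [hT, mem_filter] at hvT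
          by_contra hc
          exact hvT ⟨P.hH e he hv.1, not_le.1 hc⟩
        · rw [hmr]
          rw [show (h : ℝ) * (s * (1 / (2 * (h + 1) * s))) = h / (2 * (h + 1)) by
            field_simp]
          rw [div_le_div_iff₀ (by positivity) (by norm_num)]
          linarith)
      have h2 : (m : ℝ) ^ (h - A.card) = (m : ℝ) ^ h * (1 / (m : ℝ)) ^ A.card := by
        rw [one_div, inv_pow, pow_sub₀ _ hm0.ne' hA.2]
      rw [h2] at h1
      linarith
    have h1 := card_le_sum_of_cover P.H (fun _ => True) (T.powerset.filter (fun A => A.card ≤ h))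
      (fun A e => e ∩ T = A) (fun e he _ => ⟨e ∩ T, mem_filter.2
        ⟨mem_powerset.2 inter_subset_right, (card_le_card inter_subset_left).trans (hh e he)⟩,
        rfl⟩)
    have h2 : P.H.filter (fun _ => True) = P.H := Multiset.filter_eq_self.2 (fun _ _ => trivial)
    rw [h2] at h1
    have h3 := h1.trans (sum_le_sum hNA)
    rw [← mul_sum] at h3
    have h4 : ∑ A ∈ T.powerset.filter (fun A => A.card ≤ h), (1 / (m : ℝ)) ^ A.card ≤
        Real.exp f' := by
      refine (sum_le_sum_of_subset_of_nonneg (filter_subset _ _)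
        (fun A _ _ => by positivity)).trans ?_
      rw [sum_pow_powerset]
      have h5 : 1 + 1 / (m : ℝ) ≤ Real.exp (1 / m) := by
        have := Real.add_one_le_exp (1 / (m : ℝ)); linarith
      refine (pow_le_pow_left₀ (by positivity) h5 _).trans ?_
      rw [← Real.exp_nat_mul, Real.exp_le_exp, mul_one_div, div_le_iff₀ hm0]
      exact hTc.trans (mul_le_mul_of_nonneg_left hms (Nat.cast_nonneg f'))
    have h5 : (4 * (P.V.card : ℝ) / m + 2 * h + 1) ^ β ≤
        (2 * h + 5) ^ β * ((P.V.card : ℝ) / s) ^ β := by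
      rw [← Real.mul_rpow (by positivity) (by positivity)]
      apply Real.rpow_le_rpow (by positivity) _ hβ
      have h6 : 4 * (P.V.card : ℝ) / m ≤ 4 * (P.V.card / s) := by
        rw [mul_div_assoc]
        apply mul_le_mul_of_nonneg_left _ (by norm_num)
        exact div_le_div_of_nonneg_left hn0.le hs0 hms
      have h7 : 1 ≤ (P.V.card : ℝ) / s := by rw [le_div_iff₀ hs0]; linarith
      nlinarith
    have h8 : 0 ≤ 4 * (m : ℝ) ^ h := by positivity
    have h9 : (P.H.card : ℝ) ≤ 4 * (m : ℝ) ^ h *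
        (C * ((2 * h + 5) ^ β * ((P.V.card : ℝ) / s) ^ β)) * Real.exp f' := by
      refine h3.trans ?_
      have h10 := mul_le_mul_of_nonneg_left (mul_le_mul_of_nonneg_left h5 hC) h8
      exact mul_le_mul h10 h4 (sum_nonneg fun A _ => by positivity) (by positivity)
    refine h9.trans ?_
    have h11 : (m : ℝ) ^ h * ((P.V.card : ℝ) / s) ^ β =
        (2 * ((h : ℝ) + 1)) ^ h * ((s : ℝ) ^ ((h : ℝ) - β) * (P.V.card : ℝ) ^ β) := by
      rw [hmr, mul_pow, Real.div_rpow hn0.le hs0.le, Real.rpow_sub hs0, Real.rpow_natCast]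
      ring
    have h12 : 4 * (m : ℝ) ^ h * (C * ((2 * h + 5) ^ β * ((P.V.card : ℝ) / s) ^ β)) *
        Real.exp f' = K1 * C * ((s : ℝ) ^ ((h : ℝ) - β) * (P.V.card : ℝ) ^ β) := by
      rw [show 4 * (m : ℝ) ^ h * (C * ((2 * h + 5) ^ β * ((P.V.card : ℝ) / s) ^ β)) *
        Real.exp f' = 4 * (2 * h + 5) ^ β * Real.exp f' * C *
          ((m : ℝ) ^ h * ((P.V.card : ℝ) / s) ^ β) by ring, h11, hK1]
      ring
    rw [h12]
    have h13 : 0 ≤ K2 * C * ((s : ℝ) ^ ((h : ℝ) - β) * (P.V.card : ℝ) ^ β) := by positivity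
    nlinarith
  · -- few vertices
    have hns' : (P.V.card : ℝ) ≤ s := by exact_mod_cast hns.le
    have h1 := crude P h β C hβ hC hI hh hF hV
    have h2 : (P.V.card : ℝ) ^ h ≤ (s : ℝ) ^ ((h : ℝ) - β) * (P.V.card : ℝ) ^ β := by
      have h3 : (P.V.card : ℝ) ^ h = (P.V.card : ℝ) ^ ((h : ℝ) - β) * (P.V.card : ℝ) ^ β := by
        rw [← Real.rpow_add hn0, sub_add_cancel, Real.rpow_natCast]
      rw [h3]
      apply mul_le_mul_of_nonneg_right _ (by positivity)
      exact Real.rpow_le_rpow hn0.le hns' (by linarith)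
    have h4 : (P.H.card : ℝ) ≤ K2 * C * ((s : ℝ) ^ ((h : ℝ) - β) * (P.V.card : ℝ) ^ β) := by
      refine h1.trans ?_
      rw [hK2]
      have h5 : (0 : ℝ) ≤ C * ((h : ℝ) + 1) ^ β := by positivity
      have := mul_le_mul_of_nonneg_right (mul_le_mul_of_nonneg_left h2 (by norm_num : (0:ℝ) ≤ 3)) h5
      refine this.trans (le_of_eq ?_)
      ring
    have h13 : 0 ≤ K1 * C * ((s : ℝ) ^ ((h : ℝ) - β) * (P.V.card : ℝ) ^ β) := by positivity
    nlinarith

end Pool.Agent.KS6_66.SS
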