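import Pool.Agent.KS6_66.SS.C

/-!
# Heavy sets
-/

set_option autoImplicit false

namespace Pool.Agent.KS6_66.SS

open Finset

lemma sum_map_le_of_cover {α κ : Type*} (s : Multiset α) (p : α → Prop) [DecidablePred p]
    (w : α → ℝ) (T : Finset κ) (q : κ → α → Prop) [∀ k, DecidablePred (q k)] (w' : κ → α → ℝ)
    (hw' : ∀ k a, 0 ≤ w' k a) (h : ∀ a ∈ s, p a → ∃ k ∈ T, q k a ∧ w a ≤ w' k a) :
    ((s.filter p).map w).sum ≤ ∑ k ∈ T, ((s.filter (q k)).map (w' k)).sum := by
  classical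
  induction s using Multiset.induction with
  | empty => simp
  | cons a t ih =>
    have ih' := ih (fun b hb => h b (Multiset.mem_cons_of_mem hb))
    have hmono : ∀ j ∈ T, ((t.filter (q j)).map (w' j)).sum ≤
        (((a ::ₘ t).filter (q j)).map (w' j)).sum := by
      intro j _
      by_cases hj : q j a
      · rw [Multiset.filter_cons_of_pos _ hj, Multiset.map_cons, Multiset.sum_cons]
        have := hw' j a
        linarith
      · rw [Multiset.filter_cons_of_neg _ hj]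
    by_cases hp : p a
    · obtain ⟨k, hk, hq, hle⟩ := h a (Multiset.mem_cons_self a t) hp
      rw [Multiset.filter_cons_of_pos _ hp, Multiset.map_cons, Multiset.sum_cons]
      have h1 : ∀ j ∈ T, ((t.filter (q j)).map (w' j)).sum + (if j = k then w' k a else 0) ≤
          (((a ::ₘ t).filter (q j)).map (w' j)).sum := by
        intro j hjT
        by_cases hjk : j = k
        · rw [if_pos hjk, hjk, Multiset.filter_cons_of_pos _ hq, Multiset.map_cons,
            Multiset.sum_cons]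
          linarith
        · rw [if_neg hjk, add_zero]
          exact hmono j hjT
      have h2 := sum_le_sum h1
      rw [sum_add_distrib, sum_ite_eq' T k, if_pos hk] at h2
      linarith
    · rw [Multiset.filter_cons_of_neg _ hp]
      exact ih'.trans (sum_le_sum hmono)

lemma sum_biUnion_le' {α κ : Type*} [DecidableEq α] (s : Finset κ) (t : κ → Finset α)
    (f : α → ℝ) (hf : ∀ a, 0 ≤ f a) : ∑ a ∈ s.biUnion t, f a ≤ ∑ k ∈ s, ∑ a ∈ t k, f a := by
  classical
  induction s using Finset.induction with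
  | empty => simp
  | insert k s hk ih =>
    rw [biUnion_insert, sum_insert hk]
    have h1 : ∑ a ∈ t k ∪ s.biUnion t, f a ≤ ∑ a ∈ t k, f a + ∑ a ∈ s.biUnion t, f a := by
      rw [← sum_union_inter]
      exact le_add_of_nonneg_right (sum_nonneg fun _ _ => hf _)
    linarith

lemma sum_image_le' {α κ : Type*} [DecidableEq α] (s : Finset κ) (g : κ → α)
    (f : α → ℝ) (hf : ∀ a, 0 ≤ f a) : ∑ a ∈ s.image g, f a ≤ ∑ k ∈ s, f (g k) := by
  have h1 : s.image g = s.biUnion (fun k => {g k}) := by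
    ext a; simp [eq_comm]
  rw [h1]
  refine (sum_biUnion_le' s _ f hf).trans (le_of_eq ?_)
  simp

/-- The weighted number of the edges properly containing `B`. -/
noncomputable def W (F : Multiset (Finset ℕ)) (B : Finset ℕ) (m : ℕ) : ℝ :=
  ((F.filter (fun E => B ⊂ E)).map (fun E => (1 / (m : ℝ)) ^ (E \ B).card)).sum

/-- `B` is heavy. -/
def Heavy (P : HPair) (h m : ℕ) (B : Finset ℕ) : Prop := 1 / 2 ^ (h + 1) ≤ W P.F B m

open Classical in
/-- The nonempty heavy subsets of `V`. -/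
noncomputable def HS (P : HPair) (h m : ℕ) : Finset (Finset ℕ) :=
  P.V.powerset.filter (fun B => B.Nonempty ∧ Heavy P h m B)

lemma mem_HS {P : HPair} {h m : ℕ} {B : Finset ℕ} :
    B ∈ HS P h m ↔ B ⊆ P.V ∧ B.Nonempty ∧ Heavy P h m B := by
  unfold HS
  simp only [Finset.mem_filter, Finset.mem_powerset]

lemma wt_le_heavy (P : HPair) (h m : ℕ) (A e : Finset ℕ) (he : e.card ≤ h) (heV : e ⊆ P.V)
    (hF : ∀ E ∈ P.F, ¬ E ⊆ e) (hA : ∀ B ∈ HS P h m, B ⊆ e → B ⊆ A) : wt P.F A e m ≤ 1 / 2 := by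
  classical
  have h1 := sum_map_le_of_cover P.F (fun E => ¬ E ∩ e ⊆ A)
    (fun E => (1 / (m : ℝ)) ^ (E \ e).card) (e.powerset.filter (fun B => ¬ B ⊆ A))
    (fun B E => B ⊂ E) (fun B E => (1 / (m : ℝ)) ^ (E \ B).card) (fun _ _ => by positivity) (by
      intro E hE hEA
      refine ⟨E ∩ e, mem_filter.2 ⟨mem_powerset.2 inter_subset_right, hEA⟩, ?_, ?_⟩
      · refine Finset.ssubset_iff_subset_ne.2 ⟨inter_subset_left, fun h2 => hF E hE ?_⟩
        rw [← h2]; exact inter_subset_right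
      · have : E \ (E ∩ e) = E \ e := by
          ext v; simp
        rw [this])
  unfold wt
  refine h1.trans ?_
  have h2 : ∀ B ∈ e.powerset.filter (fun B => ¬ B ⊆ A),
      ((P.F.filter (fun E => B ⊂ E)).map (fun E => (1 / (m : ℝ)) ^ (E \ B).card)).sum ≤
        1 / 2 ^ (h + 1) := by
    intro B hB
    rw [mem_filter, mem_powerset] at hB
    by_contra hc
    apply hB.2
    refine hA B (mem_HS.2 ⟨hB.1.trans heV, ?_, ?_⟩) hB.1
    · rw [nonempty_iff_ne_empty]
      rintro rfl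
      exact hB.2 (empty_subset _)
    · exact (not_le.1 hc).le
  refine (sum_le_sum h2).trans ?_
  rw [sum_const, nsmul_eq_mul]
  have h3 : ((e.powerset.filter (fun B => ¬ B ⊆ A)).card : ℝ) ≤ 2 ^ h := by
    have : (e.powerset.filter (fun B => ¬ B ⊆ A)).card ≤ 2 ^ h := by
      refine (card_le_card (filter_subset _ _)).trans ?_
      rw [card_powerset]
      exact Nat.pow_le_pow_right (by norm_num) he
    exact_mod_cast this
  calc ((e.powerset.filter (fun B => ¬ B ⊆ A)).card : ℝ) * (1 / 2 ^ (h + 1)) ≤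
      2 ^ h * (1 / 2 ^ (h + 1)) := mul_le_mul_of_nonneg_right h3 (by positivity)
    _ = 1 / 2 := by rw [pow_succ]; field_simp

lemma sum_sub (P : HPair) (f' : ℕ) (hF' : ∀ E ∈ P.F, E.card ≤ f') :
    ∑ B ∈ P.V.powerset, ((P.F.filter (fun E => B ⊂ E)).card : ℝ) ≤ 2 ^ f' * P.F.card := by
  classical
  have key : ∀ s : Multiset (Finset ℕ), (∀ E ∈ s, E.card ≤ f') →
      ∑ B ∈ P.V.powerset, ((s.filter (fun E => B ⊂ E)).card : ℝ) ≤ 2 ^ f' * s.card := by
    intro s
    induction s using Multiset.induction with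
    | empty => intro _; simp
    | cons a t ih =>
      intro hs
      have ih' := ih (fun E hE => hs E (Multiset.mem_cons_of_mem hE))
      have h2 := hs a (Multiset.mem_cons_self a t)
      have h3 : ∀ B ∈ P.V.powerset, (((a ::ₘ t).filter (fun E => B ⊂ E)).card : ℝ) =
          (if B ⊂ a then (1 : ℝ) else 0) + ((t.filter (fun E => B ⊂ E)).card : ℝ) := by
        intro B _
        by_cases hv : B ⊂ a
        · rw [Multiset.filter_cons_of_pos (p := fun E => B ⊂ E) _ hv, if_pos hv,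
            Multiset.card_cons]; push_cast; ring
        · rw [Multiset.filter_cons_of_neg (p := fun E => B ⊂ E) _ hv, if_neg hv, zero_add]
      rw [sum_congr rfl h3, sum_add_distrib, Multiset.card_cons, ← sum_filter, sum_const,
        nsmul_eq_mul, mul_one]
      have h4 : (P.V.powerset.filter (fun B => B ⊂ a)).card ≤ 2 ^ f' := by
        refine le_trans (card_le_card (t := a.powerset) ?_) ?_
        · intro B hB; exact mem_powerset.2 (mem_filter.1 hB).2.1
        · rw [card_powerset]; exact Nat.pow_le_pow_right (by norm_num) h2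
      have h5 : ((P.V.powerset.filter (fun B => B ⊂ a)).card : ℝ) ≤ 2 ^ f' := by
        exact_mod_cast h4
      push_cast
      linarith
  exact key P.F hF'

/-- The weighted number of heavy sets. -/
lemma heavy_sum (P : HPair) (h m f' r : ℕ) (hm : 1 ≤ m) (hF' : ∀ E ∈ P.F, E.card ≤ f')
    (U : Finset ℕ) (hr : ∀ E ∈ P.F, ∀ B, B ⊂ E → ¬ B ⊆ U → r ≤ (B \ U).card + (E \ B).card)
    [DecidablePred (fun B : Finset ℕ => ¬ B ⊆ U)] :
    ∑ B ∈ (HS P h m).filter (fun B => ¬ B ⊆ U), (1 / (m : ℝ)) ^ (B \ U).card ≤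
      2 ^ (h + 1) * 2 ^ f' * P.F.card * (1 / (m : ℝ)) ^ r := by
  classical
  have hm1 : (1 : ℝ) ≤ m := by exact_mod_cast hm
  have hq : 1 / (m : ℝ) ≤ 1 := by rw [div_le_one (by linarith)]; exact hm1
  have hq0 : 0 ≤ 1 / (m : ℝ) := by positivity
  have h1 : ∀ B ∈ (HS P h m).filter (fun B => ¬ B ⊆ U), (1 / (m : ℝ)) ^ (B \ U).card ≤
      2 ^ (h + 1) * (1 / (m : ℝ)) ^ r * ((P.F.filter (fun E => B ⊂ E)).card : ℝ) := by
    intro B hB
    rw [mem_filter, mem_HS] at hB
    obtain ⟨⟨_, _, hBh⟩, hBU⟩ := hB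
    have h2 : (1 / (m : ℝ)) ^ (B \ U).card * W P.F B m ≤
        (1 / (m : ℝ)) ^ r * ((P.F.filter (fun E => B ⊂ E)).card : ℝ) := by
      unfold W
      rw [← Multiset.sum_map_mul_left, mul_comm _ ((P.F.filter (fun E => B ⊂ E)).card : ℝ),
        ← nsmul_eq_mul, ← Multiset.sum_replicate, ← Multiset.map_const']
      refine Multiset.sum_map_le_sum_map _ _ fun E hE => ?_
      rw [Multiset.mem_filter] at hE
      rw [← pow_add]
      exact pow_le_pow_of_le_one hq0 hq (hr E hE.1 B hE.2 hBU)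
    have h3 : 1 ≤ 2 ^ (h + 1) * W P.F B m := by
      have h4 : (1 : ℝ) / 2 ^ (h + 1) ≤ W P.F B m := hBh
      rw [div_le_iff₀ (by positivity)] at h4
      linarith
    have h5 : 0 ≤ (1 / (m : ℝ)) ^ (B \ U).card := by positivity
    calc (1 / (m : ℝ)) ^ (B \ U).card ≤
        (1 / (m : ℝ)) ^ (B \ U).card * (2 ^ (h + 1) * W P.F B m) :=
          le_mul_of_one_le_right h5 h3
      _ = 2 ^ (h + 1) * ((1 / (m : ℝ)) ^ (B \ U).card * W P.F B m) := by ring
      _ ≤ 2 ^ (h + 1) * ((1 / (m : ℝ)) ^ r * ((P.F.filter (fun E => B ⊂ E)).card : ℝ)) :=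
          mul_le_mul_of_nonneg_left h2 (by positivity)
      _ = _ := by ring
  refine (sum_le_sum h1).trans ?_
  rw [← mul_sum]
  have h2 : ∑ B ∈ (HS P h m).filter (fun B => ¬ B ⊆ U),
      ((P.F.filter (fun E => B ⊂ E)).card : ℝ) ≤ 2 ^ f' * P.F.card := by
    refine le_trans (sum_le_sum_of_subset_of_nonneg ?_ (fun _ _ _ => by positivity))
      (sum_sub P f' hF')
    intro B hB
    exact mem_powerset.2 (mem_HS.1 (mem_filter.1 hB).1).1
  calc 2 ^ (h + 1) * (1 / (m : ℝ)) ^ r * ∑ B ∈ (HS P h m).filter (fun B => ¬ B ⊆ U),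
      ((P.F.filter (fun E => B ⊂ E)).card : ℝ) ≤
      2 ^ (h + 1) * (1 / (m : ℝ)) ^ r * (2 ^ f' * P.F.card) :=
        mul_le_mul_of_nonneg_left h2 (by positivity)
    _ = _ := by ring

lemma heavy_sum_empty (P : HPair) (h m f f' : ℕ) (hm : 1 ≤ m) (hF' : ∀ E ∈ P.F, E.card ≤ f')
    (hf : ∀ E ∈ P.F, f ≤ E.card) :
    ∑ B ∈ HS P h m, (1 / (m : ℝ)) ^ B.card ≤
      2 ^ (h + 1) * 2 ^ f' * P.F.card * (1 / (m : ℝ)) ^ f := by
  classical
  have h1 := heavy_sum P h m f' f hm hF' ∅ (by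
    intro E hE B hB _
    rw [sdiff_empty, card_sdiff_of_subset hB.1]
    have := card_le_card hB.1
    have := hf E hE
    omega)
  have h2 : (HS P h m).filter (fun B => ¬ B ⊆ ∅) = HS P h m := by
    rw [filter_eq_self]
    intro B hB
    rw [subset_empty]
    exact (mem_HS.1 hB).2.1.ne_empty
  rw [h2] at h1
  simpa only [sdiff_empty] using h1

/-- Unions of few heavy sets. -/
noncomputable def AS (P : HPair) (h m : ℕ) : ℕ → Finset (Finset ℕ)
  | 0 => HS P h m
  | (k + 1) => AS P h m k ∪ (AS P h m k).biUnion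
      (fun U => ((HS P h m).filter (fun B => ¬ B ⊆ U)).image (fun B => U ∪ B))

lemma AS_sub (P : HPair) (h m k : ℕ) : ∀ A ∈ AS P h m k, A ⊆ P.V := by
  induction k with
  | zero => intro A hA; exact (mem_HS.1 hA).1
  | succ k ih =>
    intro A hA
    rw [AS, mem_union, mem_biUnion] at hA
    rcases hA with hA | ⟨U, hU, hA⟩
    · exact ih A hA
    · rw [mem_image] at hA
      obtain ⟨B, hB, rfl⟩ := hA
      exact union_subset (ih U hU) (mem_HS.1 (mem_filter.1 hB).1).1

lemma AS_sum (P : HPair) (h m f' : ℕ) (hm : 1 ≤ m) (hF' : ∀ E ∈ P.F, E.card ≤ f') (k : ℕ) :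
    ∑ A ∈ AS P h m k, (1 / (m : ℝ)) ^ A.card ≤
      (1 + 2 ^ (h + 1) * 2 ^ f' * P.F.card * (1 / (m : ℝ)) ^ 2) ^ k *
        ∑ B ∈ HS P h m, (1 / (m : ℝ)) ^ B.card := by
  classical
  induction k with
  | zero => rw [AS, pow_zero, one_mul]
  | succ k ih =>
    set Q : ℝ := 2 ^ (h + 1) * 2 ^ f' * P.F.card * (1 / (m : ℝ)) ^ 2 with hQ
    have hQ0 : 0 ≤ Q := by positivity
    rw [AS]
    have h1 : ∑ A ∈ AS P h m k ∪ (AS P h m k).biUnion
        (fun U => ((HS P h m).filter (fun B => ¬ B ⊆ U)).image (fun B => U ∪ B)),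
        (1 / (m : ℝ)) ^ A.card ≤ ∑ A ∈ AS P h m k, (1 / (m : ℝ)) ^ A.card +
        ∑ A ∈ (AS P h m k).biUnion
        (fun U => ((HS P h m).filter (fun B => ¬ B ⊆ U)).image (fun B => U ∪ B)),
        (1 / (m : ℝ)) ^ A.card := by
      rw [← sum_union_inter]
      exact le_add_of_nonneg_right (sum_nonneg fun _ _ => by positivity)
    have h2 : ∑ A ∈ (AS P h m k).biUnion
        (fun U => ((HS P h m).filter (fun B => ¬ B ⊆ U)).image (fun B => U ∪ B)),
        (1 / (m : ℝ)) ^ A.card ≤ ∑ U ∈ AS P h m k, (1 / (m : ℝ)) ^ U.card * Q := by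
      refine (sum_biUnion_le' _ _ _ (fun _ => by positivity)).trans (sum_le_sum fun U _ => ?_)
      refine (sum_image_le' _ _ _ (fun _ => by positivity)).trans ?_
      have h3 : ∀ B ∈ (HS P h m).filter (fun B => ¬ B ⊆ U), (1 / (m : ℝ)) ^ (U ∪ B).card =
          (1 / (m : ℝ)) ^ U.card * (1 / (m : ℝ)) ^ (B \ U).card := by
        intro B _
        rw [← pow_add]
        congr 1
        rw [← card_union_of_disjoint disjoint_sdiff, union_sdiff_self_eq_union]
      rw [sum_congr rfl h3, ← mul_sum]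
      apply mul_le_mul_of_nonneg_left _ (by positivity)
      apply heavy_sum P h m f' 2 hm hF' U
      intro E _ B hBE hBU
      have h4 : 1 ≤ (B \ U).card := by
        rw [Nat.one_le_iff_ne_zero, Ne, card_eq_zero, sdiff_eq_empty_iff_subset]
        exact hBU
      have h5 : 1 ≤ (E \ B).card := by
        rw [Nat.one_le_iff_ne_zero, Ne, card_eq_zero, sdiff_eq_empty_iff_subset]
        exact hBE.2
      omega
    rw [← sum_mul] at h2
    have h3 : 0 ≤ ∑ A ∈ AS P h m k, (1 / (m : ℝ)) ^ A.card := sum_nonneg fun _ _ => by positivity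
    refine h1.trans ?_
    rw [pow_succ]
    have h4 := mul_le_mul_of_nonneg_left ih (by linarith : 0 ≤ 1 + Q)
    linarith

lemma AS_closure (P : HPair) (h m : ℕ) (e : Finset ℕ) (he : e.card ≤ h)
    (hex : ∃ B ∈ HS P h m, B ⊆ e) :
    ∃ A ∈ AS P h m h, A ⊆ e ∧ ∀ B ∈ HS P h m, B ⊆ e → B ⊆ A := by
  classical
  have key : ∀ k, ∃ A ∈ AS P h m k, A ⊆ e ∧
      ((∀ B ∈ HS P h m, B ⊆ e → B ⊆ A) ∨ k + 1 ≤ A.card) := by
    intro k
    induction k with
    | zero =>
      obtain ⟨B, hB, hBe⟩ := hex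
      refine ⟨B, hB, hBe, Or.inr ?_⟩
      exact card_pos.2 (mem_HS.1 hB).2.1
    | succ k ih =>
      obtain ⟨A, hA, hAe, h1 | h1⟩ := ih
      · exact ⟨A, mem_union_left _ hA, hAe, Or.inl h1⟩
      · by_cases h2 : ∀ B ∈ HS P h m, B ⊆ e → B ⊆ A
        · exact ⟨A, mem_union_left _ hA, hAe, Or.inl h2⟩
        · push Not at h2
          obtain ⟨B, hB, hBe, hBA⟩ := h2
          refine ⟨A ∪ B, ?_, union_subset hAe hBe, Or.inr ?_⟩
          · rw [AS]
            refine mem_union_right _ (mem_biUnion.2 ⟨A, hA, mem_image.2 ⟨B, ?_, rfl⟩⟩)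
            exact mem_filter.2 ⟨hB, hBA⟩
          · have h3 : A ⊂ A ∪ B := by
              refine Finset.ssubset_iff_subset_ne.2 ⟨subset_union_left, fun h4 => hBA ?_⟩
              rw [h4]; exact subset_union_right
            have := card_lt_card h3
            omega
  obtain ⟨A, hA, hAe, h1 | h1⟩ := key h
  · exact ⟨A, hA, hAe, h1⟩
  · have := card_le_card hAe
    omega

end Pool.Agent.KS6_66.SS
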