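import Pool.Agent.KS6_66.SS.D

/-!
# The bound for the number of edges for all `f`
-/

set_option autoImplicit false

namespace Pool.Agent.KS6_66.SS

open Finset

/-- The hypotheses on one pair. -/
structure Good (P : HPair) (h f f' : ℕ) (β C : ℝ) : Prop where
  hβ : 0 ≤ β
  hC : 0 ≤ C
  hI : ∀ I ⊆ P.V, (∀ E ∈ P.F, ¬ E ⊆ I) →
      ((P.H.filter (fun e => e ⊆ I)).card : ℝ) ≤ C * (max 1 (I.card : ℝ)) ^ β
  hh : ∀ e ∈ P.H, e.card ≤ h
  hf : ∀ E ∈ P.F, f ≤ E.card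
  hF' : ∀ E ∈ P.F, E.card ≤ f'
  hF : ∀ e ∈ P.F, ∀ g ∈ P.H, ¬ e ⊆ g
  hV : 1 ≤ P.V.card

variable {P : HPair} {h f f' : ℕ} {β C : ℝ}

lemma sampling' (G : Good P h f f' β C) (hβh : β < h) (m : ℕ) (hm : 1 ≤ m) (hmn : m ≤ P.V.card)
    (A : Finset ℕ) (p : Finset ℕ → Prop) [DecidablePred p]
    (hp : ∀ e ∈ P.H, p e → A ⊆ e ∧ ∀ B ∈ HS P h m, B ⊆ e → B ⊆ A) :
    ((P.H.filter p).card : ℝ) ≤
      4 * (2 * h + 5) ^ β * C * (P.V.card : ℝ) ^ β * (m : ℝ) ^ ((h : ℝ) - β) *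
        (1 / (m : ℝ)) ^ A.card := by
  classical
  have hC := G.hC
  have hm0 : (0 : ℝ) < m := by exact_mod_cast hm
  have hn0 : (0 : ℝ) < P.V.card := by exact_mod_cast G.hV
  have : NeZero m := ⟨by omega⟩
  rcases Multiset.empty_or_exists_mem (P.H.filter p) with h0 | ⟨e0, he0⟩
  · rw [h0]
    simp only [Multiset.card_zero, Nat.cast_zero]
    positivity
  · rw [Multiset.mem_filter] at he0
    have hAh : A.card ≤ h := (card_le_card (hp e0 he0.1 he0.2).1).trans (G.hh e0 he0.1)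
    have h1 := sampling P h m β C G.hβ hC G.hI A p (fun e he hpe =>
      ⟨(hp e he hpe).1, G.hh e he, fun E hE => G.hF E hE e he,
        wt_le_heavy P h m A e (G.hh e he) (P.hH e he) (fun E hE => G.hF E hE e he)
          (hp e he hpe).2⟩)
    refine h1.trans ?_
    have h2 : (m : ℝ) ^ (h - A.card) = (m : ℝ) ^ h * (1 / (m : ℝ)) ^ A.card := by
      rw [one_div, inv_pow, pow_sub₀ _ hm0.ne' hAh]
    have hmn' : (m : ℝ) ≤ P.V.card := by exact_mod_cast hmn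
    have h5 : (4 * (P.V.card : ℝ) / m + 2 * h + 1) ^ β ≤
        (2 * h + 5) ^ β * ((P.V.card : ℝ) / m) ^ β := by
      rw [← Real.mul_rpow (by positivity) (by positivity)]
      apply Real.rpow_le_rpow (by positivity) _ G.hβ
      have h6 : 4 * (P.V.card : ℝ) / m = 4 * (P.V.card / m) := mul_div_assoc _ _ _
      have h7 : 1 ≤ (P.V.card : ℝ) / m := by rw [le_div_iff₀ hm0]; linarith
      have hh0 : (0 : ℝ) ≤ h := Nat.cast_nonneg h
      nlinarith
    have h6 : (m : ℝ) ^ h * ((P.V.card : ℝ) / m) ^ β =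
        (P.V.card : ℝ) ^ β * (m : ℝ) ^ ((h : ℝ) - β) := by
      rw [Real.div_rpow hn0.le hm0.le, Real.rpow_sub hm0, Real.rpow_natCast]
      ring
    rw [h2]
    have h7 : 0 ≤ 4 * ((m : ℝ) ^ h * (1 / (m : ℝ)) ^ A.card) := by positivity
    refine (mul_le_mul_of_nonneg_left (mul_le_mul_of_nonneg_left h5 hC) h7).trans (le_of_eq ?_)
    calc 4 * ((m : ℝ) ^ h * (1 / (m : ℝ)) ^ A.card) *
        (C * ((2 * h + 5) ^ β * ((P.V.card : ℝ) / m) ^ β)) =
        4 * (2 * h + 5) ^ β * C * ((m : ℝ) ^ h * ((P.V.card : ℝ) / m) ^ β) *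
          (1 / (m : ℝ)) ^ A.card := by ring
      _ = _ := by rw [h6]; ring

lemma class_zero (G : Good P h f f' β C) (hβh : β < h)
    [DecidablePred (fun e : Finset ℕ => ∀ B ∈ HS P h 1, ¬ B ⊆ e)] :
    ((P.H.filter (fun e => ∀ B ∈ HS P h 1, ¬ B ⊆ e)).card : ℝ) ≤
      4 * (2 * h + 5) ^ β * C * (P.V.card : ℝ) ^ β := by
  have h1 := sampling' G hβh 1 le_rfl G.hV ∅ (fun e => ∀ B ∈ HS P h 1, ¬ B ⊆ e)
    (fun e _ hpe => ⟨empty_subset _, fun B hB hBe => absurd hBe (hpe B hB)⟩)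
  simpa using h1

lemma class_mid (G : Good P h f f' β C) (hβh : β < h) (m : ℕ) (hm : 1 ≤ m)
    (hmn : 2 * m ≤ P.V.card)
    [DecidablePred (fun e : Finset ℕ => (∃ B ∈ HS P h m, B ⊆ e) ∧
      ∀ B ∈ HS P h (2 * m), ¬ B ⊆ e)] :
    ((P.H.filter (fun e => (∃ B ∈ HS P h m, B ⊆ e) ∧
      ∀ B ∈ HS P h (2 * m), ¬ B ⊆ e)).card : ℝ) ≤
      4 * (2 * h + 5) ^ β * 2 ^ h * (2 ^ (h + 1) * 2 ^ f') * C *
        (P.F.card * (m : ℝ) ^ ((h : ℝ) - β - f)) * (P.V.card : ℝ) ^ β := by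
  classical
  have hC := G.hC
  have hm0 : (0 : ℝ) < m := by exact_mod_cast hm
  have h1 := card_le_sum_of_cover P.H (fun e => (∃ B ∈ HS P h m, B ⊆ e) ∧
      ∀ B ∈ HS P h (2 * m), ¬ B ⊆ e) (HS P h m)
      (fun B e => B ⊆ e ∧ ∀ B' ∈ HS P h (2 * m), ¬ B' ⊆ e)
      (fun e _ ⟨⟨B, hB, hBe⟩, h2⟩ => ⟨B, hB, hBe, h2⟩)
  have h2 : ∀ B ∈ HS P h m, ((P.H.filter (fun e => B ⊆ e ∧
      ∀ B' ∈ HS P h (2 * m), ¬ B' ⊆ e)).card : ℝ) ≤
      (4 * (2 * h + 5) ^ β * C * (P.V.card : ℝ) ^ β * (2 ^ h * (m : ℝ) ^ ((h : ℝ) - β))) *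
        (1 / (m : ℝ)) ^ B.card := by
    intro B _
    have h3 := sampling' G hβh (2 * m) (by omega) hmn B
      (fun e => B ⊆ e ∧ ∀ B' ∈ HS P h (2 * m), ¬ B' ⊆ e)
      (fun e _ hpe => ⟨hpe.1, fun B' hB' hBe => absurd hBe (hpe.2 B' hB')⟩)
    refine h3.trans ?_
    have h4 : ((2 * m : ℕ) : ℝ) ^ ((h : ℝ) - β) ≤ 2 ^ h * (m : ℝ) ^ ((h : ℝ) - β) := by
      push_cast
      rw [Real.mul_rpow (by norm_num) hm0.le]
      apply mul_le_mul_of_nonneg_right _ (by positivity)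
      rw [← Real.rpow_natCast]
      apply Real.rpow_le_rpow_of_exponent_le (by norm_num)
      linarith [G.hβ]
    have h5 : (1 / ((2 * m : ℕ) : ℝ)) ^ B.card ≤ (1 / (m : ℝ)) ^ B.card := by
      apply pow_le_pow_left₀ (by positivity)
      apply div_le_div_of_nonneg_left (by norm_num) hm0
      push_cast; linarith
    have h6 : 0 ≤ 4 * (2 * h + 5) ^ β * C * (P.V.card : ℝ) ^ β := by positivity
    exact mul_le_mul (mul_le_mul_of_nonneg_left h4 h6) h5 (by positivity) (by positivity)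
  refine h1.trans ((sum_le_sum h2).trans ?_)
  rw [← mul_sum]
  have h3 := heavy_sum_empty P h m f f' hm G.hF' G.hf
  refine (mul_le_mul_of_nonneg_left h3 (by positivity)).trans (le_of_eq ?_)
  have h4 : (m : ℝ) ^ ((h : ℝ) - β - f) = (m : ℝ) ^ ((h : ℝ) - β) * (1 / (m : ℝ)) ^ f := by
    rw [Real.rpow_sub hm0, Real.rpow_natCast, one_div, inv_pow]; rfl
  rw [h4]
  ring

lemma class_top (G : Good P h f f' β C) (hβh : β < h) (m s : ℕ) (hm : 1 ≤ m)
    (hmn : m ≤ P.V.card) (hsm : s < 2 * m) (hs : P.F.card ≤ s ^ 2)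
    [DecidablePred (fun e : Finset ℕ => ∃ B ∈ HS P h m, B ⊆ e)] :
    ((P.H.filter (fun e => ∃ B ∈ HS P h m, B ⊆ e)).card : ℝ) ≤
      4 * (2 * h + 5) ^ β * ((1 + 2 ^ (h + 1) * 2 ^ f' * 4) ^ h) * (2 ^ (h + 1) * 2 ^ f') * C *
        (P.F.card * (m : ℝ) ^ ((h : ℝ) - β - f)) * (P.V.card : ℝ) ^ β := by
  classical
  have hC := G.hC
  have hm0 : (0 : ℝ) < m := by exact_mod_cast hm
  have h1 := card_le_sum_of_cover P.H (fun e => ∃ B ∈ HS P h m, B ⊆ e) (AS P h m h)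
      (fun A e => A ⊆ e ∧ ∀ B ∈ HS P h m, B ⊆ e → B ⊆ A)
      (fun e he hex => AS_closure P h m e (G.hh e he) hex)
  have h2 : ∀ A ∈ AS P h m h, ((P.H.filter (fun e => A ⊆ e ∧
      ∀ B ∈ HS P h m, B ⊆ e → B ⊆ A)).card : ℝ) ≤
      (4 * (2 * h + 5) ^ β * C * (P.V.card : ℝ) ^ β * (m : ℝ) ^ ((h : ℝ) - β)) *
        (1 / (m : ℝ)) ^ A.card := by
    intro A _
    exact sampling' G hβh m hm hmn A (fun e => A ⊆ e ∧ ∀ B ∈ HS P h m, B ⊆ e → B ⊆ A)
      (fun e _ hpe => hpe)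
  refine h1.trans ((sum_le_sum h2).trans ?_)
  rw [← mul_sum]
  have h3 := heavy_sum_empty P h m f f' hm G.hF' G.hf
  have h4 := AS_sum P h m f' hm G.hF' h
  have h5 : (P.F.card : ℝ) * (1 / (m : ℝ)) ^ 2 ≤ 4 := by
    have h6 : (P.F.card : ℝ) ≤ (s : ℝ) ^ 2 := by exact_mod_cast hs
    have h7 : (s : ℝ) ≤ 2 * m := by exact_mod_cast hsm.le
    have h8 : (s : ℝ) ^ 2 ≤ (2 * m) ^ 2 := pow_le_pow_left₀ (Nat.cast_nonneg s) h7 2
    rw [one_div, inv_pow, ← div_eq_mul_inv, div_le_iff₀ (by positivity)]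
    nlinarith
  have h6 : (1 + 2 ^ (h + 1) * 2 ^ f' * (P.F.card : ℝ) * (1 / (m : ℝ)) ^ 2) ^ h ≤
      (1 + 2 ^ (h + 1) * 2 ^ f' * 4) ^ h := by
    apply pow_le_pow_left₀ (by positivity)
    have : (0 : ℝ) ≤ 2 ^ (h + 1) * 2 ^ f' := by positivity
    nlinarith
  have h7 : ∑ A ∈ AS P h m h, (1 / (m : ℝ)) ^ A.card ≤ (1 + 2 ^ (h + 1) * 2 ^ f' * 4) ^ h *
      (2 ^ (h + 1) * 2 ^ f' * P.F.card * (1 / (m : ℝ)) ^ f) := by
    refine h4.trans (mul_le_mul h6 h3 (sum_nonneg fun _ _ => by positivity) (by positivity))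
  refine (mul_le_mul_of_nonneg_left h7 (by positivity)).trans (le_of_eq ?_)
  have h8 : (m : ℝ) ^ ((h : ℝ) - β - f) = (m : ℝ) ^ ((h : ℝ) - β) * (1 / (m : ℝ)) ^ f := by
    rw [Real.rpow_sub hm0, Real.rpow_natCast, one_div, inv_pow]; rfl
  rw [h8]
  ring

lemma mult_le (G : Good P h f f' β C) (A : Finset ℕ) :
    ((P.H.filter (fun e => e = A)).card : ℝ) ≤ C * ((h : ℝ) + 1) ^ β := by
  classical
  have hC := G.hC
  by_cases hAH : A ∈ P.H
  · have h4 := G.hI A (P.hH A hAH) (fun E hE => G.hF E hE A hAH)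
    have h5 : ((P.H.filter (fun e => e = A)).card : ℝ) ≤
        ((P.H.filter (fun e => e ⊆ A)).card : ℝ) := by
      have : (P.H.filter (fun e => e = A)).card ≤ (P.H.filter (fun e => e ⊆ A)).card := by
        apply Multiset.card_le_card
        apply Multiset.monotone_filter_right
        intro e he
        rw [he]
      exact_mod_cast this
    refine h5.trans (h4.trans (mul_le_mul_of_nonneg_left ?_ hC))
    apply Real.rpow_le_rpow (by positivity) _ G.hβ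
    have h6 : (A.card : ℝ) ≤ h := by exact_mod_cast G.hh A hAH
    have h7 : (0 : ℝ) ≤ h := Nat.cast_nonneg h
    apply max_le <;> linarith
  · have h4 : P.H.filter (fun e => e = A) = 0 := by
      rw [Multiset.filter_eq_nil]
      rintro e he rfl
      exact hAH he
    rw [h4]
    simp only [Multiset.card_zero, Nat.cast_zero]
    positivity

lemma crude_sup (G : Good P h f f' β C) (B : Finset ℕ) :
    ((P.H.filter (fun e => B ⊆ e)).card : ℝ) ≤
      3 * ((h : ℝ) + 1) ^ β * C * (P.V.card : ℝ) ^ h * (1 / (P.V.card : ℝ)) ^ B.card := by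
  classical
  have hC := G.hC
  have hn0 : (0 : ℝ) < P.V.card := by exact_mod_cast G.hV
  rcases Multiset.empty_or_exists_mem (P.H.filter (fun e => B ⊆ e)) with h0 | ⟨e0, he0⟩
  · rw [h0]
    simp only [Multiset.card_zero, Nat.cast_zero]
    positivity
  · rw [Multiset.mem_filter] at he0
    have hBh : B.card ≤ h := (card_le_card he0.2).trans (G.hh e0 he0.1)
    have h1 := card_le_sum_of_cover P.H (fun e => B ⊆ e)
      (P.V.powerset.filter (fun A => A.card ≤ h - B.card)) (fun A e => e = B ∪ A) (by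
        intro e he hBe
        refine ⟨e \ B, mem_filter.2 ⟨mem_powerset.2 (sdiff_subset.trans (P.hH e he)), ?_⟩, ?_⟩
        · rw [card_sdiff_of_subset hBe]
          have := G.hh e he
          omega
        · rw [union_sdiff_of_subset hBe])
    refine h1.trans ((sum_le_sum (fun A _ => mult_le G (B ∪ A))).trans ?_)
    rw [sum_const, nsmul_eq_mul]
    have h2 := card_small_le P.V (h - B.card) G.hV
    have h3 : (P.V.card : ℝ) ^ (h - B.card) =
        (P.V.card : ℝ) ^ h * (1 / (P.V.card : ℝ)) ^ B.card := by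
      rw [one_div, inv_pow, pow_sub₀ _ hn0.ne' hBh]
    rw [h3] at h2
    refine (mul_le_mul_of_nonneg_right h2 (by positivity)).trans (le_of_eq ?_)
    ring

lemma class_few (G : Good P h f f' β C) (hβh : β < h) (m : ℕ) (hm : 1 ≤ m)
    (hmn : m ≤ P.V.card) (hnm : P.V.card < 2 * m)
    [DecidablePred (fun e : Finset ℕ => ∃ B ∈ HS P h m, B ⊆ e)] :
    ((P.H.filter (fun e => ∃ B ∈ HS P h m, B ⊆ e)).card : ℝ) ≤
      3 * ((h : ℝ) + 1) ^ β * 2 ^ h * (2 ^ (h + 1) * 2 ^ f') * C *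
        (P.F.card * (m : ℝ) ^ ((h : ℝ) - β - f)) * (P.V.card : ℝ) ^ β := by
  classical
  have hC := G.hC
  have hm0 : (0 : ℝ) < m := by exact_mod_cast hm
  have hn0 : (0 : ℝ) < P.V.card := by exact_mod_cast G.hV
  have hmn' : (m : ℝ) ≤ P.V.card := by exact_mod_cast hmn
  have hnm' : (P.V.card : ℝ) ≤ 2 * m := by exact_mod_cast hnm.le
  have h1 := card_le_sum_of_cover P.H (fun e => ∃ B ∈ HS P h m, B ⊆ e) (HS P h m)
      (fun B e => B ⊆ e) (fun e _ hex => hex)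
  have h2 : ∀ B ∈ HS P h m, ((P.H.filter (fun e => B ⊆ e)).card : ℝ) ≤
      (3 * ((h : ℝ) + 1) ^ β * C * (P.V.card : ℝ) ^ h) * (1 / (m : ℝ)) ^ B.card := by
    intro B _
    refine (crude_sup G B).trans ?_
    apply mul_le_mul_of_nonneg_left _ (by positivity)
    apply pow_le_pow_left₀ (by positivity)
    exact div_le_div_of_nonneg_left (by norm_num) hm0 hmn'
  refine h1.trans ((sum_le_sum h2).trans ?_)
  rw [← mul_sum]
  have h3 := heavy_sum_empty P h m f f' hm G.hF' G.hf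
  have h4 : (P.V.card : ℝ) ^ h ≤ (P.V.card : ℝ) ^ β * (2 ^ h * (m : ℝ) ^ ((h : ℝ) - β)) := by
    have h5 : (P.V.card : ℝ) ^ h = (P.V.card : ℝ) ^ β * (P.V.card : ℝ) ^ ((h : ℝ) - β) := by
      rw [← Real.rpow_add hn0, add_sub_cancel, Real.rpow_natCast]
    rw [h5]
    apply mul_le_mul_of_nonneg_left _ (by positivity)
    refine (Real.rpow_le_rpow hn0.le hnm' (by linarith)).trans ?_
    rw [Real.mul_rpow (by norm_num) hm0.le]
    apply mul_le_mul_of_nonneg_right _ (by positivity)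
    rw [← Real.rpow_natCast]
    apply Real.rpow_le_rpow_of_exponent_le (by norm_num)
    linarith [G.hβ]
  have h6 : 3 * ((h : ℝ) + 1) ^ β * C * (P.V.card : ℝ) ^ h ≤
      3 * ((h : ℝ) + 1) ^ β * C * ((P.V.card : ℝ) ^ β * (2 ^ h * (m : ℝ) ^ ((h : ℝ) - β))) :=
    mul_le_mul_of_nonneg_left h4 (by positivity)
  refine (mul_le_mul h6 h3 (sum_nonneg fun _ _ => by positivity) (by positivity)).trans
    (le_of_eq ?_)
  have h8 : (m : ℝ) ^ ((h : ℝ) - β - f) = (m : ℝ) ^ ((h : ℝ) - β) * (1 / (m : ℝ)) ^ f := by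
    rw [Real.rpow_sub hm0, Real.rpow_natCast, one_div, inv_pow]; rfl
  rw [h8]
  ring

end Pool.Agent.KS6_66.SS
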