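import Pool.Agent.KS6_66.SS.E

/-!
# Lower bounds for the number of edges of `F`
-/

set_option autoImplicit false

namespace Pool.Agent.KS6_66.SS

open Finset

lemma fcard_le {α : Type*} {s : Multiset α} {p q : α → Prop} {ip : DecidablePred p}
    {iq : DecidablePred q} (h : ∀ e ∈ s, p e → q e) {r : ℝ}
    (hr : ((s.filter q).card : ℝ) ≤ r) : ((s.filter p).card : ℝ) ≤ r := by
  refine le_trans ?_ hr
  have h1 : (s.filter p).card ≤ (s.filter q).card := by
    apply Multiset.card_le_card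
    rw [Multiset.le_filter]
    refine ⟨Multiset.filter_le _ _, fun a ha => ?_⟩
    rw [Multiset.mem_filter] at ha
    exact h a ha.1 ha.2
  exact_mod_cast h1

theorem general_bound (h f f' : ℕ) (β : ℝ) (hβ : 0 ≤ β) (hγ : (f : ℝ) < h - β) :
    ∃ K : ℝ, 0 < K ∧ ∀ (P : HPair) (C : ℝ) (s : ℕ), Good P h f f' β C → 1 ≤ s →
      P.F.card ≤ s ^ 2 →
      (P.H.card : ℝ) ≤ K * C * (s : ℝ) ^ ((h : ℝ) - β - f + 2) * (P.V.card : ℝ) ^ β := by
  classical
  have hf0 : (0 : ℝ) ≤ f := Nat.cast_nonneg f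
  have hβh : β < h := by linarith
  obtain ⟨γ, hγd⟩ : ∃ γ : ℝ, γ = (h : ℝ) - β - f := ⟨_, rfl⟩
  have hγ0 : 0 < γ := by rw [hγd]; linarith
  obtain ⟨x, hx⟩ : ∃ x : ℝ, x = (2 : ℝ) ^ γ := ⟨_, rfl⟩
  have hx1 : 1 < x := by rw [hx]; exact Real.one_lt_rpow (by norm_num) hγ0
  obtain ⟨Ka, hKa⟩ : ∃ K : ℝ, K = 4 * (2 * h + 5) ^ β := ⟨_, rfl⟩
  obtain ⟨Kb, hKb⟩ : ∃ K : ℝ, K = 4 * (2 * h + 5) ^ β * 2 ^ h * (2 ^ (h + 1) * 2 ^ f') := ⟨_, rfl⟩
  obtain ⟨Kc, hKc⟩ : ∃ K : ℝ, K = 4 * (2 * h + 5) ^ β * ((1 + 2 ^ (h + 1) * 2 ^ f' * 4) ^ h) *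
    (2 ^ (h + 1) * 2 ^ f') := ⟨_, rfl⟩
  obtain ⟨Kd, hKd⟩ : ∃ K : ℝ, K = 3 * ((h : ℝ) + 1) ^ β * 2 ^ h * (2 ^ (h + 1) * 2 ^ f') :=
    ⟨_, rfl⟩
  have hKa0 : 0 < Ka := by rw [hKa]; positivity
  have hKb0 : 0 ≤ Kb := by rw [hKb]; positivity
  have hKc0 : 0 ≤ Kc := by rw [hKc]; positivity
  have hKd0 : 0 ≤ Kd := by rw [hKd]; positivity
  have hKb' : 0 ≤ Kb / (x - 1) := div_nonneg hKb0 (by linarith)
  refine ⟨Ka + Kb / (x - 1) + Kc + Kd, by linarith, ?_⟩
  intro P C s G hs hsF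
  have hC := G.hC
  have hs1 : (1 : ℝ) ≤ s := by exact_mod_cast hs
  have hs0 : (0 : ℝ) < s := by linarith
  obtain ⟨t, ht⟩ : ∃ t, t = min s P.V.card := ⟨_, rfl⟩
  have ht1 : 1 ≤ t := by rw [ht]; exact le_min hs G.hV
  obtain ⟨j0, hj0⟩ : ∃ j0, j0 = Nat.log 2 t := ⟨_, rfl⟩
  have hm0t : 2 ^ j0 ≤ t := by rw [hj0]; exact Nat.pow_log_le_self 2 (by omega)
  have htm : t < 2 * 2 ^ j0 := by
    rw [hj0, mul_comm, ← pow_succ]
    exact Nat.lt_pow_succ_log_self (by norm_num) t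
  have hm0s : 2 ^ j0 ≤ s := hm0t.trans (by rw [ht]; exact min_le_left _ _)
  have hm0n : 2 ^ j0 ≤ P.V.card := hm0t.trans (by rw [ht]; exact min_le_right _ _)
  obtain ⟨D, hD⟩ : ∃ D : ℝ, D = (s : ℝ) ^ ((h : ℝ) - β - f + 2) := ⟨_, rfl⟩
  have hD1 : 1 ≤ D := by rw [hD]; exact Real.one_le_rpow hs1 (by linarith)
  obtain ⟨N, hN⟩ : ∃ N : ℝ, N = (P.V.card : ℝ) ^ β := ⟨_, rfl⟩
  have hN0 : 0 ≤ N := by rw [hN]; positivity
  have hFs : (P.F.card : ℝ) ≤ (s : ℝ) ^ 2 := by exact_mod_cast hsF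
  have hMD : ∀ m : ℕ, m ≤ s → (P.F.card : ℝ) * (m : ℝ) ^ ((h : ℝ) - β - f) ≤ D := by
    intro m hm
    have hm' : (m : ℝ) ≤ s := by exact_mod_cast hm
    have h1 : (m : ℝ) ^ ((h : ℝ) - β - f) ≤ (s : ℝ) ^ ((h : ℝ) - β - f) :=
      Real.rpow_le_rpow (Nat.cast_nonneg m) hm' (by linarith)
    have h2 : D = (s : ℝ) ^ 2 * (s : ℝ) ^ ((h : ℝ) - β - f) := by
      rw [hD, Real.rpow_add hs0, mul_comm]
      congr 1
      exact_mod_cast Real.rpow_natCast (s : ℝ) 2
    rw [h2]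
    exact mul_le_mul hFs h1 (by positivity) (by positivity)
  -- the cover
  set q : ℕ → Finset ℕ → Prop := fun k e =>
    if k < j0 then ((∃ B ∈ HS P h (2 ^ k), B ⊆ e) ∧ ∀ B ∈ HS P h (2 * 2 ^ k), ¬ B ⊆ e)
    else if k = j0 then (∀ B ∈ HS P h 1, ¬ B ⊆ e) else (∃ B ∈ HS P h (2 ^ j0), B ⊆ e) with hq
  have hcov := card_le_sum_of_cover P.H (fun _ => True) (range (j0 + 2)) q (by
    intro e _ _
    by_cases h0 : ∀ B ∈ HS P h 1, ¬ B ⊆ e
    · refine ⟨j0, mem_range.2 (by omega), ?_⟩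
      simp only [hq, lt_irrefl, if_false, if_true]
      exact h0
    · by_cases h1 : ∃ B ∈ HS P h (2 ^ j0), B ⊆ e
      · refine ⟨j0 + 1, mem_range.2 (by omega), ?_⟩
        simp only [hq]
        rw [if_neg (by omega), if_neg (by omega)]
        exact h1
      · have h2 : ∃ k, k < j0 ∧ (∃ B ∈ HS P h (2 ^ k), B ⊆ e) ∧
            ¬ ∃ B ∈ HS P h (2 ^ (k + 1)), B ⊆ e := by
          by_contra hc
          push Not at hc
          apply h1
          have key : ∀ k, k ≤ j0 → ∃ B ∈ HS P h (2 ^ k), B ⊆ e := by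
            intro k
            induction k with
            | zero =>
              intro _
              push Not at h0
              simpa using h0
            | succ k ih =>
              intro hk
              exact hc k (by omega) (ih (by omega))
          exact key j0 le_rfl
        obtain ⟨k, hk, h3, h4⟩ := h2
        refine ⟨k, mem_range.2 (by omega), ?_⟩
        simp only [hq]
        rw [if_pos hk]
        refine ⟨h3, fun B hB hBe => h4 ⟨B, ?_, hBe⟩⟩
        rw [pow_succ, mul_comm]; exact hB)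
  have h2 : P.H.filter (fun _ => True) = P.H := Multiset.filter_eq_self.2 (fun _ _ => trivial)
  rw [h2, sum_range_succ, sum_range_succ] at hcov
  -- the middle classes
  have hmid : ∑ k ∈ range j0, ((P.H.filter (q k)).card : ℝ) ≤ Kb / (x - 1) * (C * D * N) := by
    have h3 : ∀ k ∈ range j0, ((P.H.filter (q k)).card : ℝ) ≤
        (Kb * C * (P.F.card : ℝ) * N) * x ^ k := by
      intro k hk
      rw [mem_range] at hk
      have h5 : 2 * 2 ^ k ≤ P.V.card := by
        refine le_trans ?_ hm0n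
        rw [mul_comm, ← pow_succ]
        exact Nat.pow_le_pow_right (by norm_num) hk
      refine (fcard_le (fun e _ he => ?_)
        (class_mid G hβh (2 ^ k) Nat.one_le_two_pow h5)).trans (le_of_eq ?_)
      · simp only [hq] at he
        rwa [if_pos hk] at he
      have h6 : (((2 ^ k : ℕ) : ℝ)) ^ ((h : ℝ) - β - f) = x ^ k := by
        rw [hx, hγd]
        push_cast
        rw [← Real.rpow_natCast, ← Real.rpow_natCast, ← Real.rpow_mul (by norm_num),
          ← Real.rpow_mul (by norm_num), mul_comm]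
      rw [h6, ← hN, hKb]
      ring
    refine (sum_le_sum h3).trans ?_
    rw [← mul_sum, geom_sum_eq hx1.ne']
    have h7 : (x ^ j0 - 1) / (x - 1) ≤ x ^ j0 / (x - 1) :=
      div_le_div_of_nonneg_right (by linarith) (by linarith)
    have h8 : (P.F.card : ℝ) * x ^ j0 ≤ D := by
      have h9 := hMD (2 ^ j0) hm0s
      have h6 : (((2 ^ j0 : ℕ) : ℝ)) ^ ((h : ℝ) - β - f) = x ^ j0 := by
        rw [hx, hγd]
        push_cast
        rw [← Real.rpow_natCast, ← Real.rpow_natCast, ← Real.rpow_mul (by norm_num),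
          ← Real.rpow_mul (by norm_num), mul_comm]
      rwa [h6] at h9
    calc Kb * C * (P.F.card : ℝ) * N * ((x ^ j0 - 1) / (x - 1)) ≤
        Kb * C * (P.F.card : ℝ) * N * (x ^ j0 / (x - 1)) :=
          mul_le_mul_of_nonneg_left h7 (by positivity)
      _ = Kb / (x - 1) * (C * ((P.F.card : ℝ) * x ^ j0) * N) := by ring
      _ ≤ Kb / (x - 1) * (C * D * N) := by
          apply mul_le_mul_of_nonneg_left _ hKb'
          apply mul_le_mul_of_nonneg_right _ hN0
          exact mul_le_mul_of_nonneg_left h8 hC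
  have hzero : ((P.H.filter (q j0)).card : ℝ) ≤ Ka * (C * D * N) := by
    refine (fcard_le (fun e _ he => ?_) (class_zero G hβh)).trans ?_
    · simp only [hq] at he
      rw [if_neg (by omega), if_pos trivial] at he
      exact he
    rw [← hN, ← hKa]
    have h5 : C * N ≤ C * D * N := by
      have : 0 ≤ C * N := mul_nonneg hC hN0
      nlinarith
    calc Ka * C * N = Ka * (C * N) := by ring
      _ ≤ Ka * (C * D * N) := mul_le_mul_of_nonneg_left h5 hKa0.le
  have htop : ((P.H.filter (q (j0 + 1))).card : ℝ) ≤ (Kc + Kd) * (C * D * N) := by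
    have h4 : ∀ e ∈ P.H, q (j0 + 1) e → ∃ B ∈ HS P h (2 ^ j0), B ⊆ e := by
      intro e _ he
      simp only [hq] at he
      rw [if_neg (by omega), if_neg (by omega)] at he
      exact he
    have h5 := hMD (2 ^ j0) hm0s
    have hCDN : 0 ≤ C * D * N := by positivity
    rcases le_or_gt s P.V.card with h6 | h6
    · have h7 : s < 2 * 2 ^ j0 := by
        rw [ht, min_eq_left h6] at htm; exact htm
      refine (fcard_le h4 (class_top G hβh (2 ^ j0) s Nat.one_le_two_pow hm0n h7 hsF)).trans ?_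
      rw [← hKc, ← hN]
      have h8 : Kc * C * (P.F.card * ((2 ^ j0 : ℕ) : ℝ) ^ ((h : ℝ) - β - f)) * N ≤
          Kc * (C * D * N) := by
        calc Kc * C * (P.F.card * ((2 ^ j0 : ℕ) : ℝ) ^ ((h : ℝ) - β - f)) * N ≤
            Kc * C * D * N := by
              apply mul_le_mul_of_nonneg_right _ hN0
              exact mul_le_mul_of_nonneg_left h5 (by positivity)
          _ = _ := by ring
      have h9 : 0 ≤ Kd * (C * D * N) := by positivity
      linarith
    · have h7 : P.V.card < 2 * 2 ^ j0 := by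
        rw [ht, min_eq_right h6.le] at htm; exact htm
      refine (fcard_le h4 (class_few G hβh (2 ^ j0) Nat.one_le_two_pow hm0n h7)).trans ?_
      rw [← hKd, ← hN]
      have h8 : Kd * C * (P.F.card * ((2 ^ j0 : ℕ) : ℝ) ^ ((h : ℝ) - β - f)) * N ≤
          Kd * (C * D * N) := by
        calc Kd * C * (P.F.card * ((2 ^ j0 : ℕ) : ℝ) ^ ((h : ℝ) - β - f)) * N ≤
            Kd * C * D * N := by
              apply mul_le_mul_of_nonneg_right _ hN0
              exact mul_le_mul_of_nonneg_left h5 (by positivity)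
          _ = _ := by ring
      have h9 : 0 ≤ Kc * (C * D * N) := by positivity
      linarith
  rw [← hD, ← hN]
  calc (P.H.card : ℝ) ≤ Kb / (x - 1) * (C * D * N) + Ka * (C * D * N) +
      (Kc + Kd) * (C * D * N) := by linarith
    _ = _ := by ring

/-- The supersaturation bound with exponent `θ` for the family. -/
def Supersat (Fam : Set HPair) (β θ : ℝ) : Prop :=
  ∃ k₀ c : ℝ, 0 < c ∧ ∀ P ∈ Fam, P.V.Nonempty → ∀ k : ℝ, k₀ ≤ k →
    k * (P.V.card : ℝ) ^ β ≤ P.H.card → c * k ^ θ ≤ P.F.card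

lemma Supersat.mono {Fam : Set HPair} {β θ θ' : ℝ} (hs : Supersat Fam β θ) (hθ : θ' ≤ θ) :
    Supersat Fam β θ' := by
  obtain ⟨k₀, c, hc, hs⟩ := hs
  refine ⟨max k₀ 1, c, hc, fun P hP hV k hk hkH => ?_⟩
  refine le_trans ?_ (hs P hP hV k ((le_max_left _ _).trans hk) hkH)
  apply mul_le_mul_of_nonneg_left _ hc.le
  exact Real.rpow_le_rpow_of_exponent_le ((le_max_right _ _).trans hk) hθ

lemma independent_le {Fam : Set HPair} {β C : ℝ} (hher : Hereditary Fam)
    (hex : ∀ P ∈ Fam, (P.alpha : ℝ) ≤ C * (max 1 (P.V.card : ℝ)) ^ β) (P : HPair) (hP : P ∈ Fam)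
    (I : Finset ℕ) (hI : I ⊆ P.V) (hind : ∀ E ∈ P.F, ¬ E ⊆ I) :
    ((P.H.filter (fun e => e ⊆ I)).card : ℝ) ≤ C * (max 1 (I.card : ℝ)) ^ β := by
  refine le_trans ?_ (hex _ (hher P hP I hI))
  have h1 : (P.H.filter (fun e => e ⊆ I)).card ≤ (P.restrict I).alpha := by
    unfold HPair.alpha
    have h2 : I ∈ (P.restrict I).V.powerset.filter
        (fun J => ((P.restrict I).F.filter (fun e => e ⊆ J)).card = 0) := by
      rw [mem_filter, mem_powerset]
      refine ⟨Subset.refl _, ?_⟩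
      rw [Multiset.card_eq_zero, Multiset.filter_eq_nil]
      intro E hE
      exact hind E (Multiset.mem_filter.1 hE).1
    have h3 := Finset.le_sup (f := fun J =>
      ((P.restrict I).H.filter (fun e => e ⊆ J)).card) h2
    have h4 : (P.restrict I).H.filter (fun e => e ⊆ I) = P.H.filter (fun e => e ⊆ I) := by
      have h5 : (P.restrict I).H = P.H.filter (fun e => e ⊆ I) := rfl
      rw [h5, Multiset.filter_filter]
      simp only [and_self]
    simp only [h4] at h3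
    exact h3
  exact_mod_cast h1

lemma Star.good {Fam : Set HPair} {h f f' : ℕ} {β : ℝ} (S : Star Fam h f f' β) (hβ : 0 ≤ β) :
    ∃ C : ℝ, 1 ≤ C ∧ ∀ P ∈ Fam, P.V.Nonempty → Good P h f f' β C := by
  obtain ⟨C, hC⟩ := S.ex_bound
  refine ⟨max C 1, le_max_right _ _, fun P hP hV => ?_⟩
  have hC' : ∀ P ∈ Fam, (P.alpha : ℝ) ≤ max C 1 * (max 1 (P.V.card : ℝ)) ^ β := by
    intro P hP
    refine (hC P hP).trans (mul_le_mul_of_nonneg_right (le_max_left _ _) (by positivity))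
  exact {
    hβ := hβ
    hC := by positivity
    hI := fun I hI hind => independent_le S.hereditary hC' P hP I hI hind
    hh := fun e he => (S.bounded P hP).1 e he
    hf := fun E hE => ((S.bounded P hP).2 E hE).1
    hF' := fun E hE => ((S.bounded P hP).2 E hE).2
    hF := S.not_contained P hP
    hV := card_pos.2 hV }

/-- From an upper bound for `e(H)` to a lower bound for `e(F)`. -/
lemma supersat_of_bound {Fam : Set HPair} {h f f' : ℕ} {β : ℝ} (S : Star Fam h f f' β)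
    (hβ : 0 ≤ β) (γ : ℝ) (hγ : 0 < γ) (K : ℝ) (hK : 0 < K)
    (hb : ∀ (P : HPair) (C : ℝ) (s : ℕ), Good P h f f' β C → 1 ≤ s → P.F.card ≤ s ^ 2 →
      (P.H.card : ℝ) ≤ K * C * (s : ℝ) ^ γ * (P.V.card : ℝ) ^ β) :
    Supersat Fam β (2 / γ) := by
  obtain ⟨C, hC, hgood⟩ := S.good hβ
  have hC0 : 0 < C := by linarith
  have hKC : 0 < K * C := by positivity
  refine ⟨C + 1, ((K * C) ^ (1 / γ))⁻¹ ^ 2 / 4, by positivity, fun P hP hV k hk hkH => ?_⟩
  have G := hgood P hP hV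
  have hk0 : 0 < k := by linarith
  have hn0 : (0 : ℝ) < P.V.card := by exact_mod_cast G.hV
  have hn1 : (1 : ℝ) ≤ P.V.card := by exact_mod_cast G.hV
  have hN0 : 0 < (P.V.card : ℝ) ^ β := by positivity
  rcases Nat.eq_zero_or_pos P.F.card with hM | hM
  · exfalso
    have hF0 := Multiset.card_eq_zero.1 hM
    have h1 := G.hI P.V (Subset.refl _) (by rw [hF0]; simp)
    have h2 : P.H.filter (fun e => e ⊆ P.V) = P.H := Multiset.filter_eq_self.2 P.hH
    rw [h2, max_eq_right hn1] at h1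
    have h3 : k * (P.V.card : ℝ) ^ β ≤ C * (P.V.card : ℝ) ^ β := hkH.trans h1
    have := le_of_mul_le_mul_right h3 hN0
    linarith
  · have hM1 : (1 : ℝ) ≤ P.F.card := by exact_mod_cast hM
    obtain ⟨s, hs⟩ : ∃ s, s = Nat.sqrt P.F.card + 1 := ⟨_, rfl⟩
    have hsF : P.F.card ≤ s ^ 2 := by
      rw [hs]; exact (Nat.lt_succ_sqrt' P.F.card).le
    have h1 := hb P C s G (by omega) hsF
    have h2 : k ≤ K * C * (s : ℝ) ^ γ :=
      le_of_mul_le_mul_right (hkH.trans h1) hN0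
    have hs0 : (0 : ℝ) ≤ s := Nat.cast_nonneg s
    have h3 : k ^ (1 / γ) ≤ (K * C) ^ (1 / γ) * s := by
      have h4 := Real.rpow_le_rpow hk0.le h2 (by positivity : 0 ≤ 1 / γ)
      rw [Real.mul_rpow hKC.le (by positivity), ← Real.rpow_mul hs0, mul_one_div_cancel hγ.ne',
        Real.rpow_one] at h4
      exact h4
    have h5 : (s : ℝ) ≤ 2 * Real.sqrt P.F.card := by
      have h6 : (Nat.sqrt P.F.card : ℝ) ≤ Real.sqrt P.F.card := Real.nat_sqrt_le_real_sqrt
      have h7 : 1 ≤ Real.sqrt P.F.card := Real.one_le_sqrt.2 hM1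
      rw [hs]; push_cast; linarith
    have hKg : 0 < (K * C) ^ (1 / γ) := by positivity
    have h8 : ((K * C) ^ (1 / γ))⁻¹ * k ^ (1 / γ) ≤ 2 * Real.sqrt P.F.card := by
      refine le_trans ?_ h5
      rw [inv_mul_le_iff₀ hKg]; exact h3
    have h9 := pow_le_pow_left₀ (by positivity) h8 2
    rw [mul_pow, mul_pow, Real.sq_sqrt (Nat.cast_nonneg _)] at h9
    have h10 : (k ^ (1 / γ)) ^ 2 = k ^ (2 / γ) := by
      rw [← Real.rpow_natCast, ← Real.rpow_mul hk0.le]
      congr 1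
      push_cast; ring
    rw [h10] at h9
    linarith

theorem lower_general {Fam : Set HPair} {h f f' : ℕ} {β : ℝ} (S : Star Fam h f f' β)
    (hβ : 0 ≤ β) : Supersat Fam β (2 / ((h : ℝ) - β - f + 2)) := by
  obtain ⟨K, hK, hb⟩ := general_bound h f f' β hβ S.f_lt
  have := S.f_lt
  exact supersat_of_bound S hβ _ (by linarith) K hK hb

theorem lower_simple {Fam : Set HPair} {h f f' : ℕ} {β : ℝ} (S : Star Fam h f f' β)
    (hβ : 0 ≤ β) : Supersat Fam β (2 / ((h : ℝ) - β)) := by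
  have h1 := S.beta_lt
  refine supersat_of_bound S hβ _ (by linarith)
    (4 * (2 * ((h : ℝ) + 1)) ^ h * Real.exp f' * (2 * h + 5) ^ β +
      3 * ((h : ℝ) + 1) ^ β) (by positivity) ?_
  intro P C s G hs hsF
  exact simple_bound P h f' s β C hβ h1 G.hC G.hI G.hh G.hF' G.hF G.hV hs hsF

end Pool.Agent.KS6_66.SS
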