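import Pool.Agent.KS6_66.SS.G

/-!
# The extremal families
-/

set_option autoImplicit false

namespace Pool.Agent.KS6_66.SS

open Finset

/-- The vertex number `j` of part `i`: the parts are residue classes modulo `b`, after the first
`a` (cone) vertices. -/
def lab (a b i j : ℕ) : ℕ := a + (i + b * j)

lemma lab_inj {a b i i' j j' : ℕ} (hi : i < b) (hi' : i' < b) (h : lab a b i j = lab a b i' j') :
    i = i' ∧ j = j' := by
  unfold lab at h
  have h1 : i + b * j = i' + b * j' := by omega
  have h2 : (i + b * j) % b = (i' + b * j') % b := by rw [h1]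
  rw [Nat.add_mul_mod_self_left, Nat.add_mul_mod_self_left, Nat.mod_eq_of_lt hi,
    Nat.mod_eq_of_lt hi'] at h2
  subst h2
  have h3 : b * j = b * j' := by omega
  exact ⟨rfl, Nat.eq_of_mul_eq_mul_left (by omega) h3⟩

/-- the edges of `H`: the cone and one vertex of each of the `b` parts -/
def edgeH (a b x : ℕ) (g : Fin b → Fin x) : Finset ℕ :=
  range a ∪ univ.image (fun i : Fin b => lab a b i (g i))

/-- the edges of `F`: the cone and two vertices of one part -/
def edgeF (a b x : ℕ) (t : Fin b × Fin x × Fin x) : Finset ℕ :=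
  range a ∪ {lab a b t.1 t.2.1, lab a b t.1 t.2.2}

lemma lab_lt {a b x : ℕ} (i : Fin b) (j : Fin x) : lab a b i j < a + b * x := by
  unfold lab
  have h1 := i.isLt
  have h2 : b * (j : ℕ) + b ≤ b * x := by
    rw [← Nat.mul_succ]
    exact Nat.mul_le_mul_left b j.isLt
  omega

lemma edgeH_sub (a b x : ℕ) (g : Fin b → Fin x) : edgeH a b x g ⊆ range (a + b * x) := by
  intro v hv
  unfold edgeH at hv
  rw [mem_union, mem_range, mem_image] at hv
  rw [mem_range]
  rcases hv with hv | ⟨i, _, rfl⟩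
  · omega
  · exact lab_lt _ _

lemma edgeF_sub (a b x : ℕ) (t : Fin b × Fin x × Fin x) : edgeF a b x t ⊆ range (a + b * x) := by
  intro v hv
  unfold edgeF at hv
  rw [mem_union, mem_range, mem_insert, mem_singleton] at hv
  rw [mem_range]
  rcases hv with hv | rfl | rfl
  · omega
  · exact lab_lt _ _
  · exact lab_lt _ _

/-- The basic pair: `a` cone vertices, `b` parts of size `x`; the pairs inside the first `c` parts
give the edges of `F`. -/
def basic (a b c x : ℕ) : HPair where
  V := range (a + b * x)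
  H := (univ : Finset (Fin b → Fin x)).val.map (edgeH a b x)
  F := ((univ : Finset (Fin b × Fin x × Fin x)).filter
    (fun t => t.1.1 < c ∧ t.2.1 < t.2.2)).val.map (edgeF a b x)
  hH := by
    intro e he
    rw [Multiset.mem_map] at he
    obtain ⟨g, _, rfl⟩ := he
    exact edgeH_sub a b x g
  hF := by
    intro e he
    rw [Multiset.mem_map] at he
    obtain ⟨t, _, rfl⟩ := he
    exact edgeF_sub a b x t

/-- The family of all induced pairs of the basic pairs. -/
def family (a b c : ℕ) : Set HPair :=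
  {P | ∃ x, ∃ S ⊆ (basic a b c x).V, P = (basic a b c x).restrict S}

lemma restrict_restrict (P : HPair) {S S' : Finset ℕ} (h : S' ⊆ S) :
    (P.restrict S).restrict S' = P.restrict S' := by
  have key : ∀ M : Multiset (Finset ℕ),
      (M.filter (fun e => e ⊆ S)).filter (fun e => e ⊆ S') = M.filter (fun e => e ⊆ S') := by
    intro M
    rw [Multiset.filter_filter]
    apply Multiset.filter_congr
    intro e _
    constructor
    · exact fun h => h.1
    · exact fun h' => ⟨h', h'.trans h⟩
  unfold HPair.restrict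
  simp only [key]

lemma restrict_self (P : HPair) : P.restrict P.V = P := by
  have h1 : P.H.filter (fun e => e ⊆ P.V) = P.H := Multiset.filter_eq_self.2 P.hH
  have h2 : P.F.filter (fun e => e ⊆ P.V) = P.F := Multiset.filter_eq_self.2 P.hF
  unfold HPair.restrict
  cases P
  simp only at h1 h2
  simp only [h1, h2]

lemma card_edgeF {a b x : ℕ} {t : Fin b × Fin x × Fin x} (ht : t.2.1 < t.2.2) :
    (edgeF a b x t).card = a + 2 := by
  have hne : lab a b t.1 t.2.1 ≠ lab a b t.1 t.2.2 := by
    intro h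
    have := (lab_inj t.1.isLt t.1.isLt h).2
    rw [Fin.val_eq_val] at this
    exact absurd this (ne_of_lt ht)
  unfold edgeF
  rw [card_union_of_disjoint, card_range, card_pair hne]
  rw [disjoint_left]
  intro v hv hv2
  rw [mem_range] at hv
  rw [mem_insert, mem_singleton] at hv2
  unfold lab at hv2
  omega

lemma card_edgeH {a b x : ℕ} (g : Fin b → Fin x) : (edgeH a b x g).card ≤ a + b := by
  unfold edgeH
  refine (card_union_le _ _).trans ?_
  rw [card_range]
  refine Nat.add_le_add_left (card_image_le.trans ?_) a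
  rw [card_univ, Fintype.card_fin]

lemma edgeF_not_sub {a b x : ℕ} {t : Fin b × Fin x × Fin x} (ht : t.2.1 < t.2.2)
    (g : Fin b → Fin x) : ¬ edgeF a b x t ⊆ edgeH a b x g := by
  intro h
  have key : ∀ j : Fin x, lab a b t.1 j ∈ edgeF a b x t → j = g t.1 := by
    intro j hj
    have h1 := h hj
    unfold edgeH at h1
    rw [mem_union, mem_range, mem_image] at h1
    rcases h1 with h1 | ⟨i, _, hi⟩
    · unfold lab at h1; omega
    · obtain ⟨h2, h3⟩ := lab_inj i.isLt t.1.isLt hi
      rw [Fin.val_eq_val] at h2 h3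
      rw [← h2, h3]
  have h1 := key t.2.1 (by unfold edgeF; simp)
  have h2 := key t.2.2 (by unfold edgeF; simp)
  rw [h1, h2] at ht
  exact lt_irrefl _ ht

lemma alpha_le {a b c l : ℕ} (hb : b = c + l) {P : HPair} (hP : P ∈ family a b c) :
    P.alpha ≤ (max 1 P.V.card) ^ l := by
  obtain ⟨x, S, _, rfl⟩ := hP
  unfold HPair.alpha
  apply Finset.sup_le
  intro I hI
  rw [mem_filter, mem_powerset] at hI
  obtain ⟨hIS, hI0⟩ := hI
  change I ⊆ S at hIS
  rw [Multiset.card_eq_zero] at hI0
  have hno : ∀ t : Fin b × Fin x × Fin x, t.1.1 < c → t.2.1 < t.2.2 → ¬ edgeF a b x t ⊆ I := by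
    intro t htc ht hs
    have h1 : edgeF a b x t ∈ Multiset.filter (fun e => e ⊆ I)
        ((basic a b c x).restrict S).F := by
      rw [Multiset.mem_filter]
      refine ⟨?_, hs⟩
      unfold HPair.restrict
      rw [Multiset.mem_filter]
      refine ⟨?_, hs.trans hIS⟩
      unfold basic
      rw [Multiset.mem_map]
      exact ⟨t, by rw [mem_val, mem_filter]; exact ⟨mem_univ _, htc, ht⟩, rfl⟩
    rw [hI0] at h1
    exact absurd h1 (Multiset.notMem_zero _)
  have hle : Multiset.filter (fun e => e ⊆ I) ((basic a b c x).restrict S).H ≤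
      Multiset.filter (fun e => e ⊆ I) (basic a b c x).H := by
    unfold HPair.restrict
    exact Multiset.filter_le_filter _ (Multiset.filter_le _ _)
  refine (Multiset.card_le_card hle).trans ?_
  unfold basic
  simp only
  rw [Multiset.filter_map, Multiset.card_map, ← Finset.filter_val, Finset.card_val]
  -- the chosen vertices in the last `l` parts determine the edge
  have hidx : ∀ i : Fin l, c + i.1 < b := by intro i; have := i.isLt; omega
  have hmemI : ∀ g : Fin b → Fin x, edgeH a b x g ⊆ I → ∀ i : Fin b, lab a b i (g i) ∈ I := by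
    intro g hg i
    apply hg
    unfold edgeH
    exact mem_union_right _ (mem_image_of_mem (fun i : Fin b => lab a b i (g i)) (mem_univ i))
  have hcard : (univ.filter ((fun e => e ⊆ I) ∘ edgeH a b x)).card ≤ I.card ^ l := by
    have h1 : (Fintype.piFinset (fun _ : Fin l => I)).card = I.card ^ l := by
      rw [Fintype.card_piFinset]; simp
    rw [← h1]
    refine card_le_card_of_injOn
      (fun g i => lab a b (c + i.1) (g ⟨c + i.1, hidx i⟩)) ?_ ?_
    · intro g hg
      rw [mem_coe, mem_filter] at hg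
      rw [mem_coe, Fintype.mem_piFinset]
      intro i
      exact hmemI g hg.2 ⟨c + i.1, hidx i⟩
    · intro g hg g' hg' hgg
      rw [mem_coe, mem_filter] at hg hg'
      simp only [Function.comp] at hg hg'
      funext i
      by_contra hne
      by_cases hic : i.1 < c
      · have hcone : range a ⊆ I := by
          refine subset_trans ?_ hg.2
          unfold edgeH
          exact subset_union_left
        have hpair : ∀ j j' : Fin x, lab a b i j ∈ I → lab a b i j' ∈ I → ¬ j < j' := by
          intro j j' h1 h2 h3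
          refine hno (i, j, j') hic h3 ?_
          unfold edgeF
          refine union_subset hcone ?_
          intro v hv
          rw [mem_insert, mem_singleton] at hv
          rcases hv with rfl | rfl
          · exact h1
          · exact h2
        rcases lt_or_gt_of_ne hne with h | h
        · exact hpair _ _ (hmemI g hg.2 i) (hmemI g' hg'.2 i) h
        · exact hpair _ _ (hmemI g' hg'.2 i) (hmemI g hg.2 i) h
      · have hil : i.1 - c < l := by have := i.isLt; omega
        have h2 := congrFun hgg ⟨i.1 - c, hil⟩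
        have h3 : (⟨c + (i.1 - c), hidx ⟨i.1 - c, hil⟩⟩ : Fin b) = i := by
          apply Fin.ext; simp only; omega
        have h4 : c + (i.1 - c) = i.1 := by omega
        simp only [h4] at h2
        have h5 := (lab_inj i.isLt i.isLt h2).2
        exact hne (Fin.ext h5)
  refine hcard.trans (Nat.pow_le_pow_left ?_ l)
  refine (card_le_card hIS).trans ?_
  exact le_max_right 1 S.card

lemma card_H (a b c x : ℕ) : (basic a b c x).H.card = x ^ b := by
  unfold basic
  simp

lemma card_F (a b c x : ℕ) : (basic a b c x).F.card ≤ b * x ^ 2 := by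
  unfold basic
  simp only
  rw [Multiset.card_map, Finset.card_val]
  refine (card_filter_le _ _).trans ?_
  rw [card_univ, Fintype.card_prod, Fintype.card_prod, Fintype.card_fin, Fintype.card_fin]
  rw [pow_two]

/-- The extremal family satisfies the hypotheses. -/
lemma star_family (h f f' g : ℕ) (β : ℝ) (hf : 1 ≤ f) (hff' : f ≤ f') (hβ0 : 0 ≤ β)
    (hfβ : (f : ℝ) < h - β) (hg2 : 2 ≤ g) (hfg : f ≤ g) (hgf' : g ≤ f')
    (hgh : g - 2 + ⌊β⌋₊ ≤ h) :
    Star (family (g - 2) (h - (g - 2)) (h - (g - 2) - ⌊β⌋₊)) h f f' β := by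
  refine ⟨hf, hff', ?_, ?_, ?_, ?_, hfβ, ?_⟩
  · rintro P ⟨x, S, hS, rfl⟩ S' hS'
    change S' ⊆ S at hS'
    exact ⟨x, S', hS'.trans hS, restrict_restrict _ hS'⟩
  · rintro P ⟨x, S, hS, rfl⟩
    constructor
    · intro e he
      have h1 := (Multiset.mem_filter.1 he).1
      unfold basic at h1
      rw [Multiset.mem_map] at h1
      obtain ⟨g', _, rfl⟩ := h1
      have := card_edgeH (a := g - 2) g'
      omega
    · intro e he
      have h1 := (Multiset.mem_filter.1 he).1
      unfold basic at h1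
      rw [Multiset.mem_map] at h1
      obtain ⟨t, ht, rfl⟩ := h1
      rw [mem_val, mem_filter] at ht
      have := card_edgeF (a := g - 2) ht.2.2
      omega
  · have hf0 : (0 : ℝ) ≤ f := Nat.cast_nonneg f
    linarith
  · refine ⟨1, fun P hP => ?_⟩
    rw [one_mul]
    have h1 := alpha_le (l := ⌊β⌋₊) (by omega) hP
    have h2 : (P.alpha : ℝ) ≤ (max 1 (P.V.card : ℝ)) ^ (⌊β⌋₊) := by exact_mod_cast h1
    refine h2.trans ?_
    rw [← Real.rpow_natCast]
    exact Real.rpow_le_rpow_of_exponent_le (le_max_left _ _) (Nat.floor_le hβ0)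
  · rintro P ⟨x, S, hS, rfl⟩ e he g' hg'
    have h1 := (Multiset.mem_filter.1 he).1
    have h2 := (Multiset.mem_filter.1 hg').1
    unfold basic at h1 h2
    rw [Multiset.mem_map] at h1 h2
    obtain ⟨t, ht, rfl⟩ := h1
    obtain ⟨g'', _, rfl⟩ := h2
    rw [mem_val, mem_filter] at ht
    exact edgeF_not_sub ht.2.2 g''

/-- The exponent of the extremal family. -/
lemma exponent_family (a b c : ℕ) (β θ : ℝ) (hb : 1 ≤ b) (hβ0 : 0 ≤ β) (hbβ : β < b)
    (hs : Supersat (family a b c) β θ) : θ ≤ 2 / ((b : ℝ) - β) := by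
  obtain ⟨k₀, C, hC, hs⟩ := hs
  by_contra hc
  rw [not_le] at hc
  have hγ : 0 < (b : ℝ) - β := by linarith
  have hθ0 : 0 < θ := lt_trans (by positivity) hc
  rw [div_lt_iff₀ hγ] at hc
  obtain ⟨D, hD⟩ : ∃ D : ℝ, D = (a + b : ℝ) ^ β := ⟨_, rfl⟩
  have hbr : (1 : ℝ) ≤ b := by exact_mod_cast hb
  have hD0 : 0 < D := by rw [hD]; positivity
  -- `k = x ^ (b - β) / D`
  have htend1 : Filter.Tendsto (fun x : ℕ => (x : ℝ) ^ ((b : ℝ) - β)) Filter.atTop
      Filter.atTop := (tendsto_rpow_atTop hγ).comp tendsto_natCast_atTop_atTop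
  have htend2 : Filter.Tendsto (fun x : ℕ => (x : ℝ) ^ (θ * ((b : ℝ) - β) - 2)) Filter.atTop
      Filter.atTop := (tendsto_rpow_atTop (by linarith)).comp tendsto_natCast_atTop_atTop
  obtain ⟨x, hx1, hx2, hx3⟩ : ∃ x : ℕ, k₀ * D ≤ (x : ℝ) ^ ((b : ℝ) - β) ∧
      b * D ^ θ / C < (x : ℝ) ^ (θ * ((b : ℝ) - β) - 2) ∧ 1 ≤ x := by
    have h1 := htend1.eventually_ge_atTop (k₀ * D)
    have h2 := htend2.eventually_gt_atTop (b * D ^ θ / C)
    have h3 := Filter.eventually_ge_atTop (α := ℕ) 1
    exact (h1.and (h2.and h3)).exists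
  have hx3' : (1 : ℝ) ≤ x := by exact_mod_cast hx3
  have hx0 : (0 : ℝ) < x := by linarith
  have hPmem : basic a b c x ∈ family a b c :=
    ⟨x, (basic a b c x).V, Subset.refl _, (restrict_self _).symm⟩
  have hVc : ((basic a b c x).V.card : ℝ) = a + b * x := by
    unfold basic
    simp
  have hVne : (basic a b c x).V.Nonempty := by
    unfold basic
    refine ⟨0, mem_range.2 ?_⟩
    have : 0 < b * x := Nat.mul_pos hb hx3
    omega
  have hVle : ((basic a b c x).V.card : ℝ) ^ β ≤ D * (x : ℝ) ^ β := by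
    rw [hVc, hD, ← Real.mul_rpow (by positivity) hx0.le]
    apply Real.rpow_le_rpow (by positivity) _ hβ0
    have : (0 : ℝ) ≤ a := Nat.cast_nonneg a
    nlinarith
  have hk : (x : ℝ) ^ ((b : ℝ) - β) / D * ((basic a b c x).V.card : ℝ) ^ β ≤
      (basic a b c x).H.card := by
    rw [card_H]
    push_cast
    calc (x : ℝ) ^ ((b : ℝ) - β) / D * ((basic a b c x).V.card : ℝ) ^ β ≤
        (x : ℝ) ^ ((b : ℝ) - β) / D * (D * (x : ℝ) ^ β) :=
          mul_le_mul_of_nonneg_left hVle (by positivity)
      _ = (x : ℝ) ^ ((b : ℝ) - β) * (x : ℝ) ^ β := by field_simp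
      _ = (x : ℝ) ^ b := by
          rw [← Real.rpow_add hx0, sub_add_cancel, Real.rpow_natCast]
  have h1 := hs _ hPmem hVne ((x : ℝ) ^ ((b : ℝ) - β) / D)
    (by rw [le_div_iff₀ hD0]; exact hx1) hk
  have h2 : ((basic a b c x).F.card : ℝ) ≤ b * (x : ℝ) ^ 2 := by
    exact_mod_cast card_F a b c x
  have h3 : ((x : ℝ) ^ ((b : ℝ) - β) / D) ^ θ =
      (x : ℝ) ^ (θ * ((b : ℝ) - β) - 2) * (x : ℝ) ^ 2 / D ^ θ := by
    rw [Real.div_rpow (by positivity) hD0.le, ← Real.rpow_mul hx0.le, mul_comm _ θ]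
    congr 1
    rw [← Real.rpow_natCast (x : ℝ) 2, ← Real.rpow_add hx0]
    congr 1
    push_cast; ring
  rw [h3] at h1
  have h4 : C * ((x : ℝ) ^ (θ * ((b : ℝ) - β) - 2) * (x : ℝ) ^ 2 / D ^ θ) ≤ b * (x : ℝ) ^ 2 :=
    h1.trans h2
  have hDθ : 0 < D ^ θ := by positivity
  have hx2' : (b : ℝ) * D ^ θ < (x : ℝ) ^ (θ * ((b : ℝ) - β) - 2) * C := by
    rwa [div_lt_iff₀ hC] at hx2
  have h5 : C * ((x : ℝ) ^ (θ * ((b : ℝ) - β) - 2) * (x : ℝ) ^ 2 / D ^ θ) * D ^ θ =
      (x : ℝ) ^ (θ * ((b : ℝ) - β) - 2) * C * (x : ℝ) ^ 2 := by field_simp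
  have h6 := mul_le_mul_of_nonneg_right h4 hDθ.le
  rw [h5] at h6
  have h7 : (0 : ℝ) < (x : ℝ) ^ 2 := by positivity
  nlinarith

end Pool.Agent.KS6_66.SS
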