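import Pool.Agent.KS6_66.SS.J

/-!
# The degenerate cases
-/

set_option autoImplicit false

namespace Pool.Agent.KS6_66.SS

open Finset

lemma le_alpha (P : HPair) (I : Finset ℕ) (hI : I ⊆ P.V) (hind : ∀ E ∈ P.F, ¬ E ⊆ I) :
    (P.H.filter (fun e => e ⊆ I)).card ≤ P.alpha := by
  unfold HPair.alpha
  have h2 : I ∈ P.V.powerset.filter (fun J => (P.F.filter (fun e => e ⊆ J)).card = 0) := by
    rw [mem_filter, mem_powerset]
    refine ⟨hI, ?_⟩
    rw [Multiset.card_eq_zero, Multiset.filter_eq_nil]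
    exact hind
  exact Finset.le_sup (f := fun J => (P.H.filter (fun e => e ⊆ J)).card) h2

/-- `k` is bounded if `β < 0`. -/
lemma vac_neg {Fam : Set HPair} {h f f' : ℕ} {β : ℝ} (S : Star Fam h f f' β) (hβ : β < 0) :
    ∃ k₀ : ℝ, ∀ P ∈ Fam, P.V.Nonempty → ∀ k : ℝ, k₀ ≤ k →
      ¬ k * (P.V.card : ℝ) ^ β ≤ P.H.card := by
  classical
  obtain ⟨C0, hC0⟩ := S.ex_bound
  obtain ⟨C, hCd⟩ : ∃ C : ℝ, C = max C0 1 := ⟨_, rfl⟩
  have hC1 : 1 ≤ C := by rw [hCd]; exact le_max_right _ _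
  have hC0' : 0 < C := by linarith
  have hC : ∀ P ∈ Fam, (P.alpha : ℝ) ≤ C * (max 1 (P.V.card : ℝ)) ^ β := by
    intro P hP
    refine (hC0 P hP).trans (mul_le_mul_of_nonneg_right ?_ (by positivity))
    rw [hCd]; exact le_max_left _ _
  refine ⟨3 * C * C ^ (((h : ℝ) - β) / (-β)) + 1, fun P hP hV k hk hkH => ?_⟩
  have hn : 1 ≤ P.V.card := card_pos.2 hV
  have hn1 : (1 : ℝ) ≤ P.V.card := by exact_mod_cast hn
  have hn0 : (0 : ℝ) < P.V.card := by linarith
  have hk0 : 0 < k := by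
    have : 0 < C ^ (((h : ℝ) - β) / (-β)) := by positivity
    have : 0 < 3 * C * C ^ (((h : ℝ) - β) / (-β)) := by positivity
    linarith
  have hHpos : (0 : ℝ) < P.H.card := lt_of_lt_of_le (by positivity) hkH
  have hHpos' : 0 < P.H.card := by exact_mod_cast hHpos
  obtain ⟨e, he⟩ := Multiset.card_pos_iff_exists_mem.1 hHpos'
  have hind : ∀ A ∈ P.H, ∀ E ∈ P.F, ¬ E ⊆ A := fun A hA E hE => S.not_contained P hP E hE A hA
  have h1 : 1 ≤ P.alpha := by
    refine le_trans ?_ (le_alpha P e (P.hH e he) (hind e he))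
    exact Multiset.card_pos_iff_exists_mem.2 ⟨e, Multiset.mem_filter.2 ⟨he, Subset.refl _⟩⟩
  have h2 : 1 ≤ C * (P.V.card : ℝ) ^ β := by
    have := hC P hP
    rw [max_eq_right hn1] at this
    refine le_trans ?_ this
    exact_mod_cast h1
  have h3 : (P.V.card : ℝ) ^ (-β) ≤ C := by
    rw [Real.rpow_neg hn0.le, inv_le_iff_one_le_mul₀ (by positivity)]
    exact h2
  have h4 : (P.V.card : ℝ) ^ ((h : ℝ) - β) ≤ C ^ (((h : ℝ) - β) / (-β)) := by
    have h5 : (P.V.card : ℝ) ^ ((h : ℝ) - β) =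
        ((P.V.card : ℝ) ^ (-β)) ^ (((h : ℝ) - β) / (-β)) := by
      rw [← Real.rpow_mul hn0.le]
      congr 1
      have hβne : β ≠ 0 := hβ.ne
      field_simp
    rw [h5]
    apply Real.rpow_le_rpow (by positivity) h3
    apply div_nonneg _ (by linarith)
    have : (0 : ℝ) ≤ h := Nat.cast_nonneg h
    linarith
  have h5 : (P.H.card : ℝ) ≤ 3 * (P.V.card : ℝ) ^ h * C := by
    have h6 := card_le_sum_of_cover P.H (fun _ => True)
      (P.V.powerset.filter (fun A => A.card ≤ h)) (fun A e => e = A)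
      (fun e he _ => ⟨e, mem_filter.2 ⟨mem_powerset.2 (P.hH e he), (S.bounded P hP).1 e he⟩, rfl⟩)
    have h7 : P.H.filter (fun _ => True) = P.H := Multiset.filter_eq_self.2 (fun _ _ => trivial)
    rw [h7] at h6
    refine h6.trans ?_
    have h8 : ∀ A ∈ P.V.powerset.filter (fun A => A.card ≤ h),
        ((P.H.filter (fun e => e = A)).card : ℝ) ≤ C := by
      intro A _
      by_cases hAH : A ∈ P.H
      · have h9 := independent_le S.hereditary hC P hP A (P.hH A hAH) (hind A hAH)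
        have h10 : ((P.H.filter (fun e => e = A)).card : ℝ) ≤
            ((P.H.filter (fun e => e ⊆ A)).card : ℝ) := by
          have : (P.H.filter (fun e => e = A)).card ≤ (P.H.filter (fun e => e ⊆ A)).card := by
            apply Multiset.card_le_card
            apply Multiset.monotone_filter_right
            intro e he
            rw [he]
          exact_mod_cast this
        refine h10.trans (h9.trans ?_)
        have h11 : (max 1 (A.card : ℝ)) ^ β ≤ 1 :=
          Real.rpow_le_one_of_one_le_of_nonpos (le_max_left _ _) hβ.le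
        nlinarith
      · have h9 : P.H.filter (fun e => e = A) = 0 := by
          rw [Multiset.filter_eq_nil]
          rintro e he rfl
          exact hAH he
        rw [h9]
        simp only [Multiset.card_zero, Nat.cast_zero]
        exact hC0'.le
    refine (sum_le_sum h8).trans ?_
    rw [sum_const, nsmul_eq_mul]
    exact mul_le_mul_of_nonneg_right (card_small_le P.V h hn) hC0'.le
  have h6 : k ≤ 3 * C * (P.V.card : ℝ) ^ ((h : ℝ) - β) := by
    have h7 : k * (P.V.card : ℝ) ^ β ≤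
        3 * C * (P.V.card : ℝ) ^ ((h : ℝ) - β) * (P.V.card : ℝ) ^ β := by
      refine (hkH.trans h5).trans (le_of_eq ?_)
      rw [mul_assoc (3 * C), ← Real.rpow_add hn0, sub_add_cancel, Real.rpow_natCast]
      ring
    exact le_of_mul_le_mul_right h7 (by positivity)
  have h7 : 3 * C * (P.V.card : ℝ) ^ ((h : ℝ) - β) ≤
      3 * C * C ^ (((h : ℝ) - β) / (-β)) := mul_le_mul_of_nonneg_left h4 (by positivity)
  linarith

/-- `k` is bounded if `f' = 1`. -/
lemma vac_one {Fam : Set HPair} {h f : ℕ} {β : ℝ} (S : Star Fam h f 1 β) (hβ : 0 ≤ β) :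
    ∃ k₀ : ℝ, ∀ P ∈ Fam, P.V.Nonempty → ∀ k : ℝ, k₀ ≤ k →
      ¬ k * (P.V.card : ℝ) ^ β ≤ P.H.card := by
  classical
  obtain ⟨C, hC, hgood⟩ := S.good hβ
  refine ⟨C + 1, fun P hP hV k hk hkH => ?_⟩
  have G := hgood P hP hV
  have hn1 : (1 : ℝ) ≤ P.V.card := by exact_mod_cast G.hV
  have hn0 : (0 : ℝ) < P.V.card := by linarith
  set I := P.V.filter (fun v => ∀ E ∈ P.F, v ∉ E) with hI
  have hsing : ∀ E ∈ P.F, ∃ v, E = {v} := by
    intro E hE
    apply card_eq_one.1
    have h1 := G.hf E hE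
    have h2 := G.hF' E hE
    have h3 := S.f_pos
    omega
  have hind : ∀ E ∈ P.F, ¬ E ⊆ I := by
    intro E hE hEI
    obtain ⟨v, rfl⟩ := hsing E hE
    have h1 := hEI (mem_singleton_self v)
    exact (mem_filter.1 h1).2 _ hE (mem_singleton_self v)
  have h1 := G.hI I (filter_subset _ _) hind
  have h2 : P.H.filter (fun e => e ⊆ I) = P.H := by
    apply Multiset.filter_eq_self.2
    intro e he v hv
    refine mem_filter.2 ⟨P.hH e he hv, fun E hE hvE => ?_⟩
    obtain ⟨w, rfl⟩ := hsing E hE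
    rw [mem_singleton] at hvE
    subst hvE
    exact G.hF _ hE e he (singleton_subset_iff.2 hv)
  rw [h2] at h1
  have h3 : (max 1 (I.card : ℝ)) ^ β ≤ (P.V.card : ℝ) ^ β := by
    apply Real.rpow_le_rpow (by positivity) _ hβ
    apply max_le hn1
    exact_mod_cast card_le_card (filter_subset _ _)
  have h4 : k * (P.V.card : ℝ) ^ β ≤ C * (P.V.card : ℝ) ^ β :=
    hkH.trans (h1.trans (mul_le_mul_of_nonneg_left h3 (by linarith)))
  have := le_of_mul_le_mul_right h4 (by positivity)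
  linarith

lemma supersat_of_vac {Fam : Set HPair} {β θ : ℝ} (hv : ∃ k₀ : ℝ, ∀ P ∈ Fam, P.V.Nonempty →
    ∀ k : ℝ, k₀ ≤ k → ¬ k * (P.V.card : ℝ) ^ β ≤ P.H.card) : Supersat Fam β θ := by
  obtain ⟨k₀, hv⟩ := hv
  exact ⟨k₀, 1, one_pos, fun P hP hV k hk hkH => absurd hkH (hv P hP hV k hk)⟩

theorem optimal (h f f' : ℕ) (β : ℝ) (hf : 1 ≤ f) (hff' : f ≤ f') (hfβ : (f : ℝ) < h - β)
    (hβ : 0 ≤ β) (hf' : 2 ≤ f') :
    (∀ Fam : Set HPair, Star Fam h f f' β →
      Supersat Fam β (2 / ((h : ℝ) - β - max (f : ℝ) 2 + 2))) ∧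
    ∃ Fam : Set HPair, Star Fam h f f' β ∧
      ∀ θ : ℝ, Supersat Fam β θ → θ ≤ 2 / ((h : ℝ) - β - max (f : ℝ) 2 + 2) := by
  have hfl : (⌊β⌋₊ : ℝ) ≤ β := Nat.floor_le hβ
  have hhf : f + ⌊β⌋₊ < h := by
    have : (f : ℝ) + ⌊β⌋₊ < h := by linarith
    exact_mod_cast this
  rcases Nat.lt_or_ge f 2 with h2 | h2
  · have hf1 : f = 1 := by omega
    subst hf1
    have hmax : max ((1 : ℕ) : ℝ) 2 = 2 := by norm_num
    rw [hmax, show (h : ℝ) - β - 2 + 2 = h - β by ring]
    refine ⟨fun Fam S => lower_simple S hβ, ?_⟩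
    refine ⟨_, star_family h 1 f' 2 β le_rfl hff' hβ hfβ le_rfl (by omega) hf' (by omega), ?_⟩
    intro θ hθ
    have h3 := exponent_family _ _ _ β θ (by omega) hβ (by
      rw [Nat.sub_self, Nat.sub_zero]; push_cast at hfβ; linarith) hθ
    rwa [Nat.sub_self, Nat.sub_zero] at h3
  · have hf2 : (2 : ℝ) ≤ f := by exact_mod_cast h2
    rw [max_eq_left hf2]
    refine ⟨fun Fam S => lower_general S hβ, ?_⟩
    refine ⟨_, star_family h f f' f β hf hff' hβ hfβ h2 le_rfl hff' (by omega), ?_⟩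
    intro θ hθ
    have hcast : ((h - (f - 2) : ℕ) : ℝ) = (h : ℝ) - f + 2 := by
      rw [Nat.cast_sub (by omega), Nat.cast_sub h2]; push_cast; ring
    have h3 := exponent_family _ _ _ β θ (by omega) hβ (by rw [hcast]; linarith) hθ
    rw [hcast] at h3
    rwa [show (h : ℝ) - f + 2 - β = h - β - f + 2 by ring] at h3

theorem classification (h f f' : ℕ) (β : ℝ) (hf : 1 ≤ f) (hff' : f ≤ f')
    (hfβ : (f : ℝ) < h - β) :
    (∀ Fam : Set HPair, Star Fam h f f' β → Supersat Fam β ((f : ℝ) / ((h : ℝ) - β))) ↔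
      (f ≤ 2 ∨ β < 0) := by
  constructor
  · intro H
    by_contra hc
    push Not at hc
    obtain ⟨hf3, hβ⟩ := hc
    obtain ⟨_, Fam, S, hopt⟩ := optimal h f f' β hf hff' hfβ hβ (by omega)
    have h1 := hopt _ (H Fam S)
    have hf3' : (3 : ℝ) ≤ f := by exact_mod_cast hf3
    rw [max_eq_left (by linarith), div_le_div_iff₀ (by linarith) (by linarith)] at h1
    nlinarith
  · rintro (hf2 | hβ) Fam S
    · rcases lt_or_ge β 0 with hβ | hβ
      · exact supersat_of_vac (vac_neg S hβ)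
      · refine (lower_simple S hβ).mono ?_
        have hf2' : (f : ℝ) ≤ 2 := by exact_mod_cast hf2
        have hf0 : (0 : ℝ) ≤ f := Nat.cast_nonneg f
        exact div_le_div_of_nonneg_right hf2' (by linarith)
    · exact supersat_of_vac (vac_neg S hβ)

end Pool.Agent.KS6_66.SS
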